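import Mathlib
import Pool.Agent.W188.GLR.G2
import Pool.Agent.R747.TL.A

/-!
# The phase of the functional equation of degree `m` is locally linear away from the parameters
-/

set_option autoImplicit false

open Complex Filter Topology Set

namespace Pool.Agent.U645.TL

open Pool.Agent.W188.GLR H370.DG

lemma sq_add_nat {z : ℂ} (hz : 0 ≤ z.re) (n : ℕ) : ‖z‖ ^ 2 + (n : ℝ) ^ 2 ≤ ‖z + n‖ ^ 2 := by
  rw [← normSq_eq_norm_sq, ← normSq_eq_norm_sq, normSq_apply, normSq_apply]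
  simp only [add_re, natCast_re, add_im, natCast_im, add_zero]
  have : 0 ≤ z.re * n := mul_nonneg hz (Nat.cast_nonneg n)
  nlinarith

lemma norm_add_nat {z : ℂ} (hz : 0 ≤ z.re) {R : ℝ} (hR : 0 ≤ R) (h : R ≤ ‖z‖) (n : ℕ) :
    (R + n) ^ 2 / 2 ≤ ‖z + n‖ ^ 2 := by
  have h1 := sq_add_nat hz n
  have h2 : R ^ 2 ≤ ‖z‖ ^ 2 := pow_le_pow_left₀ hR h 2
  nlinarith [sq_nonneg (R - n)]

/-- the terms -/
lemma term_le {z w : ℂ} (hz : 0 ≤ z.re) (hw : 0 ≤ w.re) {R : ℝ} (hR : 1 ≤ R) (h1 : R ≤ ‖z‖)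
    (h2 : R ≤ ‖w‖) (n : ℕ) :
    ‖1 / (w + n) - 1 / (z + n)‖ ≤ 4 * ‖z - w‖ * (1 / (R + n) - 1 / (R + (n + 1))) := by
  have hn : (0 : ℝ) ≤ n := Nat.cast_nonneg n
  have a1 := norm_add_nat hz (by linarith) h1 n
  have a2 := norm_add_nat hw (by linarith) h2 n
  have hRn : 0 < R + n := by linarith
  have b1 : 0 < ‖z + n‖ := by
    by_contra h
    have h0 : ‖z + n‖ = 0 := le_antisymm (not_lt.1 h) (norm_nonneg _)
    rw [h0] at a1
    have : 0 < (R + n) ^ 2 / 2 := by positivity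
    nlinarith
  have b2 : 0 < ‖w + n‖ := by
    by_contra h
    have h0 : ‖w + n‖ = 0 := le_antisymm (not_lt.1 h) (norm_nonneg _)
    rw [h0] at a2
    have : 0 < (R + n) ^ 2 / 2 := by positivity
    nlinarith
  have c1 : z + n ≠ 0 := norm_pos_iff.1 b1
  have c2 : w + n ≠ 0 := norm_pos_iff.1 b2
  have e : 1 / (w + n) - 1 / (z + n) = (z - w) / ((z + n) * (w + n)) := by
    field_simp
    ring
  rw [e, norm_div, norm_mul]
  have h3 : (R + n) ^ 2 / 2 ≤ ‖z + n‖ * ‖w + n‖ := by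
    have h4 : ((R + n) ^ 2 / 2) ^ 2 ≤ (‖z + n‖ * ‖w + n‖) ^ 2 := by
      rw [mul_pow, sq ((R + n) ^ 2 / 2)]
      exact mul_le_mul a1 a2 (by positivity) (by positivity)
    exact le_of_sq_le_sq h4 (by positivity)
  have e2 : 1 / (R + n) - 1 / (R + (n + 1)) = 1 / ((R + n) * (R + (n + 1))) := by
    have : R + n ≠ 0 := hRn.ne'
    have : R + (n + 1) ≠ 0 := by positivity
    field_simp
    ring
  rw [e2, div_le_iff₀ (by positivity)]
  have h5 : 1 ≤ 4 * (1 / ((R + n) * (R + (n + 1)))) * (‖z + n‖ * ‖w + n‖) := by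
    have h6 : 1 ≤ 4 * (1 / ((R + n) * (R + (n + 1)))) * ((R + n) ^ 2 / 2) := by
      have e3 : 4 * (1 / ((R + n) * (R + (n + 1)))) * ((R + n) ^ 2 / 2) =
          2 * (R + n) / (R + (n + 1)) := by
        have : R + n ≠ 0 := hRn.ne'
        have : R + (n + 1) ≠ 0 := by positivity
        field_simp
        ring
      rw [e3, le_div_iff₀ (by positivity)]
      linarith
    refine h6.trans (mul_le_mul_of_nonneg_left h3 (by positivity))
  have h7 := mul_le_mul_of_nonneg_left h5 (norm_nonneg (z - w))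
  calc ‖z - w‖ = ‖z - w‖ * 1 := (mul_one _).symm
    _ ≤ _ := h7
    _ = _ := by ring

lemma tele (R : ℝ) (hR : 1 ≤ R) (c : ℝ) (hc : 0 ≤ c) :
    HasSum (fun n : ℕ => c * (1 / (R + (n + 2 : ℕ)) - 1 / (R + ((n + 2 : ℕ) + 1)))) (c * (1 / (R + 2))) := by
  have h0 : ∀ n : ℕ, 0 ≤ c * (1 / (R + (n + 2 : ℕ)) - 1 / (R + ((n + 2 : ℕ) + 1))) := by
    intro n
    apply mul_nonneg hc
    rw [sub_nonneg]
    have hn : (0 : ℝ) ≤ (n + 2 : ℕ) := Nat.cast_nonneg _
    apply one_div_le_one_div_of_le (by linarith)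
    linarith
  rw [hasSum_iff_tendsto_nat_of_nonneg h0]
  have e : ∀ k : ℕ, ∑ n ∈ Finset.range k, c * (1 / (R + (n + 2 : ℕ)) - 1 / (R + ((n + 2 : ℕ) + 1))) =
      c * (1 / (R + 2)) - c * (1 / (R + 2 + k)) := by
    intro k
    induction k with
    | zero => simp
    | succ k ih =>
      rw [Finset.sum_range_succ, ih]
      push_cast
      have e1 : R + ((k : ℝ) + 2) = R + 2 + k := by ring
      have e2 : R + ((k : ℝ) + 2 + 1) = R + 2 + (k + 1) := by ring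
      rw [e1, e2]
      ring
  simp_rw [e]
  have h1 : Tendsto (fun k : ℕ => c * (1 / (R + 2 + k))) atTop (𝓝 (c * 0)) := by
    apply Tendsto.const_mul
    have h2 : Tendsto (fun k : ℕ => R + 2 + (k : ℝ)) atTop atTop :=
      tendsto_atTop_add_const_left _ _ tendsto_natCast_atTop_atTop
    exact h2.inv_tendsto_atTop.congr fun k => by simp [one_div]
  simpa using h1.const_sub (c * (1 / (R + 2)))

/-- the digamma function is Lipschitz with constant `O(1/R)` in `Re z > 0`, `|z| ≥ R` -/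
theorem psi_lip {z w : ℂ} (hz : 0 < z.re) (hw : 0 < w.re) {R : ℝ} (hR : 1 ≤ R) (h1 : R ≤ ‖z‖)
    (h2 : R ≤ ‖w‖) : ‖logDeriv Gamma z - logDeriv Gamma w‖ ≤ 4 * ‖z - w‖ / R := by
  rw [logDeriv_Gamma hz, logDeriv_Gamma hw]
  have s1 := summable_gd (s := z) (by linarith)
  have s2 := summable_gd (s := w) (by linarith)
  have e : -(1 / z) - 1 / (z + 1) + ∑' n, gd n z - (-(1 / w) - 1 / (w + 1) + ∑' n, gd n w) =
      (1 / (w + (0 : ℕ)) - 1 / (z + (0 : ℕ))) + (1 / (w + (1 : ℕ)) - 1 / (z + (1 : ℕ))) +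
        ∑' n : ℕ, (gd n z - gd n w) := by
    rw [s1.tsum_sub s2]
    push_cast
    rw [add_zero, add_zero]
    ring
  rw [e]
  have t0 := term_le hz.le hw.le hR h1 h2 0
  have t1 := term_le hz.le hw.le hR h1 h2 1
  have hc : 0 ≤ 4 * ‖z - w‖ := by positivity
  have t2 : ‖∑' n : ℕ, (gd n z - gd n w)‖ ≤ 4 * ‖z - w‖ * (1 / (R + 2)) := by
    apply tsum_of_norm_bounded (tele R hR _ hc)
    intro n
    have h := term_le hz.le hw.le hR h1 h2 (n + 2)
    have e2 : gd n z - gd n w = 1 / (w + ((n + 2 : ℕ) : ℂ)) - 1 / (z + ((n + 2 : ℕ) : ℂ)) := by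
      unfold gd
      push_cast
      ring
    rw [e2]
    exact h
  refine (norm_add_le _ _).trans ?_
  have t3 := norm_add_le (1 / (w + (0 : ℕ)) - 1 / (z + (0 : ℕ))) (1 / (w + (1 : ℕ)) - 1 / (z + (1 : ℕ)))
  have e4 : 4 * ‖z - w‖ / R = 4 * ‖z - w‖ * (1 / (R + (0 : ℕ)) - 1 / (R + ((0 : ℕ) + 1))) +
      4 * ‖z - w‖ * (1 / (R + (1 : ℕ)) - 1 / (R + ((1 : ℕ) + 1))) + 4 * ‖z - w‖ * (1 / (R + 2)) := by
    push_cast
    have e5 : R + (0 + 1) = R + 1 := by ring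
    have e6 : R + (1 + 1) = R + 2 := by ring
    rw [e5, e6]
    ring
  rw [e4]
  linarith

lemma psi_bd {z : ℂ} (hz : 0 < z.re) (h : 1 ≤ ‖z‖) :
    ‖logDeriv Gamma z - log (z + 2)‖ ≤ 2 + ∑' n : ℕ, 1 / ((n : ℝ) + 1) ^ 2 := by
  rw [logDeriv_Gamma' hz]
  have e : log (z + 2) - 1 / z - 1 / (z + 1) + ∑' n, er n z - log (z + 2) =
      -(1 / z) - 1 / (z + 1) + ∑' n, er n z := by ring
  rw [e]
  have h1 : ‖1 / z‖ ≤ 1 := by
    rw [norm_div, norm_one]
    exact div_le_one_of_le₀ h (norm_nonneg _)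
  have h2 : ‖1 / (z + 1)‖ ≤ 1 := by
    rw [norm_div, norm_one]
    apply div_le_one_of_le₀ _ (norm_nonneg _)
    have := re_le_norm (z + 1)
    simp at this
    linarith
  have h3 := norm_tsum_er hz
  have h4 : ‖-(1 / z) - 1 / (z + 1)‖ ≤ 1 + 1 := by
    refine (norm_sub_le _ _).trans ?_
    rw [norm_neg]
    linarith
  refine (norm_add_le _ _).trans ?_
  linarith

/-- the constant -/
noncomputable def C1 : ℝ := 4 + ∑' n : ℕ, 1 / ((n : ℝ) + 1) ^ 2

lemma C1_nonneg : 0 ≤ C1 := by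
  have := Z2_nonneg
  unfold C1; linarith

/-- the size of the logarithmic derivative of `Γ_ℝ` -/
lemma lam_re {w : ℂ} (hw : 0 < w.re) (h : 2 ≤ ‖w‖) :
    Real.log ‖w / 2 + 2‖ - C1 ≤ 2 * (Lam w).re ∧ 2 * (Lam w).re ≤ Real.log ‖w / 2 + 2‖ + C1 := by
  have hw2 : 0 < (w / 2).re := by simp; linarith
  have hn : 1 ≤ ‖w / 2‖ := by
    rw [norm_div]
    simp
    linarith
  have h1 := psi_bd hw2 hn
  have h4 := abs_le.1 (abs_re_le_norm (logDeriv Gamma (w / 2) - log (w / 2 + 2)))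
  rw [sub_re, log_re] at h4
  have hlp : 0 ≤ Real.log Real.pi ∧ Real.log Real.pi ≤ 2 := by
    constructor
    · exact Real.log_nonneg (by linarith [Real.pi_gt_three])
    · rw [Real.log_le_iff_le_exp Real.pi_pos]
      have h4 := Real.add_one_le_exp 2
      have h5 : Real.exp 2 = Real.exp 1 * Real.exp 1 := by rw [← Real.exp_add]; norm_num
      have h6 := Real.exp_one_gt_d9
      have := Real.pi_lt_d2
      nlinarith
  have e : (Lam w).re = -(Real.log Real.pi) / 2 + (logDeriv Gamma (w / 2)).re / 2 := by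
    unfold Lam
    rw [add_re]
    congr 1
    · rw [show (-((Real.log Real.pi : ℝ) : ℂ) / 2) = ((-(Real.log Real.pi) / 2 : ℝ) : ℂ) by
          push_cast; ring, ofReal_re]
    · simp
  rw [e]
  unfold C1
  constructor <;> linarith [h4.1, h4.2, hlp.1, hlp.2]

variable {m : ℕ}

/-- the derivative of the phase -/
noncomputable def Th (N : ℕ) (mu : Fin m → ℂ) (t : ℝ) : ℝ := (LL N mu (1 / 2 + (t : ℂ) * I)).re

lemma LL_eq {N : ℕ} {mu : Fin m → ℂ} (hmu : ∀ j, (mu j).re < 1 / 2) (t : ℝ) :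
    LL N mu (1 / 2 + (t : ℂ) * I) = ((Th N mu t : ℝ) : ℂ) := by
  apply Complex.ext
  · simp [Th]
  · rw [LL_line_im hmu (by simp)]
    simp

lemma Th_eq {N : ℕ} {mu : Fin m → ℂ} (hmu : ∀ j, (mu j).re < 1 / 2) (t : ℝ) :
    Th N mu t = Real.log N + ∑ j, 2 * (Lam (1 / 2 + (t : ℂ) * I - mu j)).re := by
  unfold Th LL
  rw [add_re, ofReal_re, re_sum]
  congr 1
  apply Finset.sum_congr rfl
  intro j _
  have hs : (1 / 2 + (t : ℂ) * I).re = 1 / 2 := by simp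
  rw [refl_line hs, lam_conj (reg_line hmu hs j).1, add_re, conj_re]
  ring

lemma re_pos {mu : ℂ} (hmu : mu.re < 1 / 2) (t : ℝ) : 0 < (1 / 2 + (t : ℂ) * I - mu).re := by
  simp
  linarith

/-- the derivative of the phase is Lipschitz with constant `O(1/D)` -/
theorem Th_lip {N : ℕ} {mu : Fin m → ℂ} (hmu : ∀ j, (mu j).re < 1 / 2) {D t : ℝ} (hD : 4 ≤ D)
    (h : ∀ j, D ≤ ‖1 / 2 + (t : ℂ) * I - mu j‖) {v : ℝ} (hv : |v| ≤ D / 2) :
    |Th N mu (t + v) - Th N mu t| ≤ 8 * m * |v| / D := by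
  rw [Th_eq hmu, Th_eq hmu]
  have e : Real.log N + ∑ j, 2 * (Lam (1 / 2 + ((t + v : ℝ) : ℂ) * I - mu j)).re -
      (Real.log N + ∑ j, 2 * (Lam (1 / 2 + (t : ℂ) * I - mu j)).re) =
      ∑ j, (2 * (Lam (1 / 2 + ((t + v : ℝ) : ℂ) * I - mu j)).re -
        2 * (Lam (1 / 2 + (t : ℂ) * I - mu j)).re) := by
    rw [Finset.sum_sub_distrib]; ring
  rw [e]
  refine (Finset.abs_sum_le_sum_abs _ _).trans ?_
  have hterm : ∀ j ∈ (Finset.univ : Finset (Fin m)),
      |2 * (Lam (1 / 2 + ((t + v : ℝ) : ℂ) * I - mu j)).re -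
        2 * (Lam (1 / 2 + (t : ℂ) * I - mu j)).re| ≤ 8 * |v| / D := by
    intro j _
    set w : ℂ := 1 / 2 + (t : ℂ) * I - mu j with hw
    have e1 : 1 / 2 + ((t + v : ℝ) : ℂ) * I - mu j = w + (v : ℂ) * I := by
      rw [hw]; push_cast; ring
    rw [e1]
    have hw0 : 0 < w.re := re_pos (hmu j) t
    have hw1 : 0 < (w + (v : ℂ) * I).re := by simpa using hw0
    have hwn : D ≤ ‖w‖ := h j
    have hwn2 : D / 2 ≤ ‖w + (v : ℂ) * I‖ := by
      have h1 : ‖w‖ ≤ ‖w + (v : ℂ) * I‖ + ‖(v : ℂ) * I‖ := by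
        have := norm_sub_le (w + (v : ℂ) * I) ((v : ℂ) * I)
        simpa using this
      rw [norm_mul, norm_I, mul_one, norm_real, Real.norm_eq_abs] at h1
      linarith
    have hR : 1 ≤ D / 4 := by linarith
    have a1 : D / 4 ≤ ‖w / 2‖ := by
      rw [norm_div]; simp; linarith
    have a2 : D / 4 ≤ ‖(w + (v : ℂ) * I) / 2‖ := by
      rw [norm_div]; simp; linarith
    have hl := psi_lip (z := (w + (v : ℂ) * I) / 2) (w := w / 2) (by simpa using hw1) (by simpa using hw0)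
      hR a2 a1
    have e2 : (w + (v : ℂ) * I) / 2 - w / 2 = (v : ℂ) * I / 2 := by ring
    rw [e2, norm_div, norm_mul, norm_I, mul_one, norm_real, Real.norm_eq_abs] at hl
    have e3 : 2 * (Lam (w + (v : ℂ) * I)).re - 2 * (Lam w).re =
        (logDeriv Gamma ((w + (v : ℂ) * I) / 2) - logDeriv Gamma (w / 2)).re := by
      have e4 : Lam (w + (v : ℂ) * I) - Lam w =
          (logDeriv Gamma ((w + (v : ℂ) * I) / 2) - logDeriv Gamma (w / 2)) / 2 := by
        unfold Lam; ring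
      have e5 := congrArg Complex.re e4
      rw [sub_re] at e5
      have e6 : ((logDeriv Gamma ((w + (v : ℂ) * I) / 2) - logDeriv Gamma (w / 2)) / 2).re =
          (logDeriv Gamma ((w + (v : ℂ) * I) / 2) - logDeriv Gamma (w / 2)).re / 2 := by simp
      rw [e6] at e5
      linarith
    rw [e3]
    refine (abs_re_le_norm _).trans (hl.trans (le_of_eq ?_))
    simp
    have : D ≠ 0 := by linarith
    field_simp
    ring
  refine (Finset.sum_le_sum hterm).trans (le_of_eq ?_)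
  rw [Finset.sum_const, Finset.card_univ, Fintype.card_fin, nsmul_eq_mul]
  ring

/-- the phase -/
noncomputable def Y (N : ℕ) (mu : Fin m → ℂ) (root : ℂ) (t : ℝ) : ℂ :=
  XD N mu root (1 / 2 + (t : ℂ) * I)

lemma norm_Y {N : ℕ} (hN : 0 < N) {mu : Fin m → ℂ} (hmu : ∀ j, (mu j).re < 1 / 2) {root : ℂ}
    (hroot : ‖root‖ = 1) (t : ℝ) : ‖Y N mu root t‖ = 1 :=
  norm_XD_line hN hmu hroot (by simp)

lemma Y_deriv {N : ℕ} (hN : 0 < N) {mu : Fin m → ℂ} (hmu : ∀ j, (mu j).re < 1 / 2) (root : ℂ)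
    (t : ℝ) : HasDerivAt (Y N mu root) (-(I * (Th N mu t : ℂ)) * Y N mu root t) t := by
  have hs : (1 / 2 + (t : ℂ) * I).re = 1 / 2 := by simp
  have h1 := hasDerivAt_XD hN root (reg_line hmu hs)
  have h2 : HasDerivAt (fun x : ℝ => 1 / 2 + (x : ℂ) * I) I t := by
    simpa using ((ofRealCLM.hasDerivAt (x := t)).mul_const I).const_add (1 / 2 : ℂ)
  have h3 := h1.comp t h2
  rw [LL_eq hmu] at h3
  refine h3.congr_deriv ?_
  unfold Y
  ring

/-- the phase is locally linear -/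
theorem Y_local {N : ℕ} (hN : 0 < N) {mu : Fin m → ℂ} (hmu : ∀ j, (mu j).re < 1 / 2) {root : ℂ}
    (hroot : ‖root‖ = 1) {D t : ℝ} (hD : 4 ≤ D)
    (h : ∀ j, D ≤ ‖1 / 2 + (t : ℂ) * I - mu j‖) {u : ℝ} (hu : |u| ≤ D / 2) :
    ‖Y N mu root (t + u) * cexp (((u * Th N mu t : ℝ) : ℂ) * I) - Y N mu root t‖ ≤
      8 * m * u ^ 2 / D := by
  set Λ := Th N mu t with hΛ
  set Z : ℝ → ℂ := fun v => Y N mu root (t + v) * cexp (((v * Λ : ℝ) : ℂ) * I) with hZ
  have hZn : ∀ v, ‖Z v‖ = 1 := by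
    intro v
    simp only [hZ]
    rw [norm_mul, norm_Y hN hmu hroot, norm_exp_ofReal_mul_I, mul_one]
  have hd : ∀ v : ℝ, HasDerivAt Z (-(I * ((Th N mu (t + v) - Λ : ℝ) : ℂ)) * Z v) v := by
    intro v
    have h1 := (Y_deriv hN hmu root (t + v)).comp_const_add t v
    have h2 : HasDerivAt (fun v : ℝ => cexp (((v * Λ : ℝ) : ℂ) * I))
        (cexp (((v * Λ : ℝ) : ℂ) * I) * (Λ * I)) v := by
      have h3 : HasDerivAt (fun v : ℝ => ((v * Λ : ℝ) : ℂ) * I) ((Λ : ℂ) * I) v := by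
        have h4 : HasDerivAt (fun v : ℝ => ((v : ℝ) : ℂ) * (Λ * I)) (1 * (Λ * I)) v :=
          (ofRealCLM.hasDerivAt (x := v)).mul_const _
        refine (h4.congr_deriv (by ring)).congr_of_eventuallyEq ?_
        filter_upwards with x
        push_cast; ring
      exact h3.cexp
    have h5 := h1.mul h2
    refine h5.congr_deriv ?_
    simp only [hZ]
    push_cast
    ring
  have hb : ∀ v ∈ uIcc 0 u, ‖-(I * ((Th N mu (t + v) - Λ : ℝ) : ℂ)) * Z v‖ ≤ 8 * m * |u| / D := by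
    intro v hv
    have hvu : |v| ≤ |u| := by
      rw [Set.mem_uIcc] at hv
      rcases hv with ⟨h1, h2⟩ | ⟨h1, h2⟩
      · rw [abs_of_nonneg h1]; exact h2.trans (le_abs_self u)
      · rw [abs_of_nonpos h2]; exact le_trans (by linarith) (neg_le_abs u)
    rw [norm_mul, hZn, mul_one, norm_neg, norm_mul, norm_I, one_mul, norm_real, Real.norm_eq_abs]
    refine (Th_lip hmu hD h (hvu.trans hu)).trans ?_
    have : 0 < D := by linarith
    gcongr
  have hm := (convex_uIcc (0:ℝ) u).norm_image_sub_le_of_norm_hasDerivWithin_le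
    (f := Z) (f' := fun v => -(I * ((Th N mu (t + v) - Λ : ℝ) : ℂ)) * Z v)
    (fun v _ => (hd v).hasDerivWithinAt) hb (x := 0) (y := u) left_mem_uIcc right_mem_uIcc
  have e0 : Z 0 = Y N mu root t := by simp [hZ]
  rw [e0] at hm
  refine hm.trans (le_of_eq ?_)
  rw [sub_zero, Real.norm_eq_abs]
  rw [div_mul_eq_mul_div, mul_assoc, abs_mul_abs_self]
  ring

/-- one length -/
theorem one_len {N : ℕ} (hN : 0 < N) {mu : Fin m → ℂ} (hmu : ∀ j, (mu j).re < 1 / 2) {root : ℂ}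
    (hroot : ‖root‖ = 1) {f : ℂ → ℂ}
    (hfe : ∀ s : ℂ, f s * ∏ j, (Gammaℝ (1 - s - (starRingEnd ℂ) (mu j)))⁻¹ =
      root * (N : ℂ) ^ (1 / 2 - s) * (starRingEnd ℂ) (f (1 - (starRingEnd ℂ) s)) *
        ∏ j, (Gammaℝ (s - mu j))⁻¹) {D t : ℝ} (hD : 4 ≤ D)
    (h : ∀ j, D ≤ ‖1 / 2 + (t : ℂ) * I - mu j‖) {u : ℝ} (hu : |u| ≤ D / 2) :
    4 * Pool.Agent.R747.TL.dz (u * Th N mu t / (2 * Real.pi)) * ‖f (1 / 2 + (t : ℂ) * I)‖ ≤
      2 * ‖f (1 / 2 + ((t + u : ℝ) : ℂ) * I) - f (1 / 2 + (t : ℂ) * I)‖ +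
        8 * m * u ^ 2 / D * ‖f (1 / 2 + (t : ℂ) * I)‖ := by
  have hline : ∀ x : ℝ, f (1 / 2 + (x : ℂ) * I) = Y N mu root x * (starRingEnd ℂ) (f (1 / 2 + (x : ℂ) * I)) := by
    intro x
    have h1 := fe_XD hfe (reg_line hmu (s := 1 / 2 + (x : ℂ) * I) (by simp))
    have e : 1 - (starRingEnd ℂ) (1 / 2 + (x : ℂ) * I) = 1 / 2 + (x : ℂ) * I := by
      apply Complex.ext
      · simp; norm_num
      · simp
    rw [e] at h1
    exact h1
  set F0 := f (1 / 2 + (t : ℂ) * I) with hF0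
  set F1 := f (1 / 2 + ((t + u : ℝ) : ℂ) * I) with hF1
  set Y0 := Y N mu root t with hY0
  set Y1 := Y N mu root (t + u) with hY1
  have f0 : F0 = Y0 * (starRingEnd ℂ) F0 := hline t
  have f1 : F1 = Y1 * (starRingEnd ℂ) F1 := hline (t + u)
  have n0 : ‖Y0‖ = 1 := norm_Y hN hmu hroot t
  have n1 : ‖Y1‖ = 1 := norm_Y hN hmu hroot (t + u)
  set E := cexp (((u * Th N mu t : ℝ) : ℂ) * I) with hE
  have hloc := Y_local hN hmu hroot hD h hu
  have e1 : (Y1 - Y0) * (starRingEnd ℂ) F0 = (F1 - F0) - Y1 * (starRingEnd ℂ) (F1 - F0) := by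
    rw [map_sub]
    linear_combination (-1 : ℂ) * f1 + f0
  have h1 : ‖Y1 - Y0‖ * ‖F0‖ ≤ 2 * ‖F1 - F0‖ := by
    rw [← norm_conj F0, ← norm_mul, e1]
    refine (norm_sub_le _ _).trans ?_
    rw [norm_mul, norm_conj, n1, one_mul]
    linarith
  have h2 : ‖E - 1‖ ≤ ‖Y1 - Y0‖ + 8 * m * u ^ 2 / D := by
    have e2 : Y1 * (E - 1) = (Y1 * E - Y0) - (Y1 - Y0) := by ring
    calc ‖E - 1‖ = ‖Y1 * (E - 1)‖ := by rw [norm_mul, n1, one_mul]
      _ ≤ ‖Y1 * E - Y0‖ + ‖Y1 - Y0‖ := by rw [e2]; exact norm_sub_le _ _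
      _ ≤ _ := by linarith
  have h3 := Pool.Agent.R747.TL.exp_dist (u * Th N mu t / (2 * Real.pi))
  have e3 : 2 * Real.pi * (u * Th N mu t / (2 * Real.pi)) = u * Th N mu t := by
    have := Real.pi_pos
    field_simp
  rw [e3] at h3
  calc 4 * Pool.Agent.R747.TL.dz (u * Th N mu t / (2 * Real.pi)) * ‖F0‖
      ≤ (‖Y1 - Y0‖ + 8 * m * u ^ 2 / D) * ‖F0‖ :=
        mul_le_mul_of_nonneg_right (h3.trans h2) (norm_nonneg _)
    _ = ‖Y1 - Y0‖ * ‖F0‖ + 8 * m * u ^ 2 / D * ‖F0‖ := by ring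
    _ ≤ _ := by linarith

/-- lower bound for the derivative of the phase -/
theorem Th_lower {N : ℕ} (hN : 0 < N) {mu : Fin m → ℂ} (hmu : ∀ j, (mu j).re < 1 / 2) {D t : ℝ}
    (hD : 4 ≤ D) (h : ∀ j, D ≤ ‖1 / 2 + (t : ℂ) * I - mu j‖) :
    m * (Real.log D - (C1 + 1)) ≤ Th N mu t := by
  rw [Th_eq hmu]
  have hN1 : (1 : ℝ) ≤ N := by exact_mod_cast hN
  have h0 := Real.log_nonneg hN1
  have h1 : ∑ _j : Fin m, (Real.log D - (C1 + 1)) ≤
      ∑ j, 2 * (Lam (1 / 2 + (t : ℂ) * I - mu j)).re := by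
    apply Finset.sum_le_sum
    intro j _
    have hw0 := re_pos (hmu j) t
    have h2 := (lam_re hw0 (by linarith [h j])).1
    have h3 : D / 2 ≤ ‖(1 / 2 + (t : ℂ) * I - mu j) / 2 + 2‖ := by
      have e1 : ((1 / 2 + (t : ℂ) * I - mu j) / 2).re = (1 / 2 + (t : ℂ) * I - mu j).re / 2 := by simp
      have h4 := sq_add_nat (z := (1 / 2 + (t : ℂ) * I - mu j) / 2) (by rw [e1]; linarith) 2
      have h5 : D / 2 ≤ ‖(1 / 2 + (t : ℂ) * I - mu j) / 2‖ := by
        rw [norm_div]; simp only [RCLike.norm_ofNat]; linarith [h j]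
      have h6 : ‖(1 / 2 + (t : ℂ) * I - mu j) / 2‖ ≤ ‖(1 / 2 + (t : ℂ) * I - mu j) / 2 + 2‖ := by
        apply le_of_sq_le_sq _ (norm_nonneg _)
        push_cast at h4
        linarith
      exact h5.trans h6
    have h4 := Real.log_le_log (by linarith) h3
    rw [Real.log_div (by linarith) (by norm_num)] at h4
    have h5 : Real.log 2 ≤ 1 := by
      have := Real.log_two_lt_d9
      linarith
    linarith
  rw [Finset.sum_const, Finset.card_univ, Fintype.card_fin, nsmul_eq_mul] at h1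
  linarith

/-- upper bound for the derivative of the phase -/
theorem Th_upper {N : ℕ} (hN : 0 < N) {mu : Fin m → ℂ} (hmu : ∀ j, (mu j).re < 1 / 2) {D t : ℝ}
    (hD : 4 ≤ D) (h : ∀ j, D ≤ ‖1 / 2 + (t : ℂ) * I - mu j‖) :
    Th N mu t ≤ Real.log (N * ∏ j, (1 + ‖mu j‖)) + m * (Real.log (1 + |t|) + (C1 + 2)) := by
  rw [Th_eq hmu]
  have hN1 : (N : ℝ) ≠ 0 := by exact_mod_cast hN.ne'
  have h1 : ∑ j, 2 * (Lam (1 / 2 + (t : ℂ) * I - mu j)).re ≤
      ∑ j : Fin m, (Real.log (1 + ‖mu j‖) + (Real.log (1 + |t|) + (C1 + 2))) := by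
    apply Finset.sum_le_sum
    intro j _
    have hw0 := re_pos (hmu j) t
    have h2 := (lam_re hw0 (by linarith [h j])).2
    have hn : ‖(1 / 2 + (t : ℂ) * I - mu j) / 2 + 2‖ ≤ 3 * ((1 + ‖mu j‖) * (1 + |t|)) := by
      have a1 : ‖(1 / 2 + (t : ℂ) * I - mu j) / 2 + 2‖ ≤ ‖1 / 2 + (t : ℂ) * I - mu j‖ / 2 + 2 := by
        refine (norm_add_le _ _).trans ?_
        rw [norm_div]
        simp
      have a2 : ‖1 / 2 + (t : ℂ) * I - mu j‖ ≤ 1 / 2 + |t| + ‖mu j‖ := by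
        refine (norm_sub_le _ _).trans ?_
        refine add_le_add ((norm_add_le _ _).trans ?_) le_rfl
        rw [norm_mul, norm_I, mul_one, norm_real, Real.norm_eq_abs]
        simp
      have a3 := abs_nonneg t
      have a4 := norm_nonneg (mu j)
      nlinarith [mul_nonneg a3 a4]
    have hp : 0 < ‖(1 / 2 + (t : ℂ) * I - mu j) / 2 + 2‖ := by
      have := re_le_norm ((1 / 2 + (t : ℂ) * I - mu j) / 2 + 2)
      have e1 : ((1 / 2 + (t : ℂ) * I - mu j) / 2 + 2).re = (1 / 2 + (t : ℂ) * I - mu j).re / 2 + 2 := by simp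
      rw [e1] at this
      linarith
    have h3 := Real.log_le_log hp hn
    rw [Real.log_mul (by norm_num) (by positivity), Real.log_mul (by positivity) (by positivity)] at h3
    have h4 : Real.log 3 ≤ 2 := by
      have := Real.log_le_sub_one_of_pos (by norm_num : (0:ℝ) < 3)
      linarith
    linarith
  have h2 : ∑ j : Fin m, (Real.log (1 + ‖mu j‖) + (Real.log (1 + |t|) + (C1 + 2))) =
      Real.log (∏ j, (1 + ‖mu j‖)) + m * (Real.log (1 + |t|) + (C1 + 2)) := by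
    rw [Finset.sum_add_distrib, Finset.sum_const, Finset.card_univ, Fintype.card_fin, nsmul_eq_mul,
      Real.log_prod (fun j _ => by positivity)]
  rw [Real.log_mul hN1 (Finset.prod_ne_zero_iff.2 fun j _ => by positivity)]
  linarith

end Pool.Agent.U645.TL
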