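import Mathlib
import Pool.Agent.U645.TL.P1

/-!
# One length is enough in the conductor aspect
-/

set_option autoImplicit false

open Complex Filter Topology Set

namespace Pool.Agent.U645.TL

open Pool.Agent.W188.GLR H370.DG

lemma inv_re_eq (w : ℂ) : (1 / w).re = w.re / (w.re ^ 2 + w.im ^ 2) := by
  rw [one_div, inv_re, normSq_apply]
  ring

/-- the terms are monotone in the imaginary part -/
lemma term_mono {z z' : ℂ} (hz : 0 < z.re) (hre : z'.re = z.re) (h0 : 0 ≤ z.im) (h1 : z.im ≤ z'.im)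
    (n : ℕ) : 0 ≤ (1 / (z + n)).re - (1 / (z' + n)).re := by
  rw [inv_re_eq, inv_re_eq]
  simp only [add_re, natCast_re, add_im, natCast_im, add_zero, hre]
  have hn : (0 : ℝ) ≤ n := Nat.cast_nonneg n
  have h2 : 0 < z.re + n := by linarith
  rw [sub_nonneg]
  apply div_le_div_of_nonneg_left h2.le (by positivity)
  have : z.im ^ 2 ≤ z'.im ^ 2 := pow_le_pow_left₀ h0 h1 2
  linarith

lemma psi_mono {z z' : ℂ} (hz : 0 < z.re) (hre : z'.re = z.re) (h0 : 0 ≤ z.im) (h1 : z.im ≤ z'.im) :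
    (1 / (z + 1)).re - (1 / (z' + 1)).re ≤ (logDeriv Gamma z').re - (logDeriv Gamma z).re := by
  have hz' : 0 < z'.re := by rw [hre]; exact hz
  have s1 := summable_gd (s := z) (by linarith)
  have s2 := summable_gd (s := z') (by linarith)
  have e : logDeriv Gamma z' - logDeriv Gamma z =
      (1 / (z + (0 : ℕ)) - 1 / (z' + (0 : ℕ))) + (1 / (z + (1 : ℕ)) - 1 / (z' + (1 : ℕ))) +
        ∑' n : ℕ, (gd n z' - gd n z) := by
    rw [logDeriv_Gamma hz, logDeriv_Gamma hz', s2.tsum_sub s1]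
    push_cast
    rw [add_zero, add_zero]
    ring
  have e2 : (logDeriv Gamma z').re - (logDeriv Gamma z).re =
      ((1 / (z + (0 : ℕ))).re - (1 / (z' + (0 : ℕ))).re) +
        ((1 / (z + (1 : ℕ))).re - (1 / (z' + (1 : ℕ))).re) +
        ∑' n : ℕ, (gd n z' - gd n z).re := by
    rw [← sub_re, e, add_re, add_re, sub_re, sub_re, re_tsum (s2.sub s1)]
  rw [e2]
  have t0 := term_mono hz hre h0 h1 0
  have t2 : 0 ≤ ∑' n : ℕ, (gd n z' - gd n z).re := by
    apply tsum_nonneg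
    intro n
    have h := term_mono hz hre h0 h1 (n + 2)
    have e3 : gd n z' - gd n z = 1 / (z + ((n + 2 : ℕ) : ℂ)) - 1 / (z' + ((n + 2 : ℕ) : ℂ)) := by
      unfold gd
      push_cast
      ring
    rw [e3, sub_re]
    exact h
  push_cast at t0 ⊢
  linarith

lemma lam_sub (w w' : ℂ) : 2 * (Lam w').re - 2 * (Lam w).re =
    (logDeriv Gamma (w' / 2)).re - (logDeriv Gamma (w / 2)).re := by
  have e4 : Lam w' - Lam w = (logDeriv Gamma (w' / 2) - logDeriv Gamma (w / 2)) / 2 := by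
    unfold Lam; ring
  have e5 := congrArg Complex.re e4
  rw [sub_re] at e5
  have e6 : ((logDeriv Gamma (w' / 2) - logDeriv Gamma (w / 2)) / 2).re =
      ((logDeriv Gamma (w' / 2)).re - (logDeriv Gamma (w / 2)).re) / 2 := by
    rw [← sub_re]; simp
  rw [e6] at e5
  linarith

/-- one parameter: explicit lower bound -/
lemma lam_gain {mu : ℂ} (hmu : mu.re < 1 / 2) {A t v : ℝ} (hA : ‖mu‖ ≤ A) (ht : A + 2 ≤ t)
    (hv : 0 ≤ v) :
    v / (4 * (t + A + v + 2) ^ 4) ≤ 2 * (Lam (1 / 2 + ((t + v : ℝ) : ℂ) * I - mu)).re -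
      2 * (Lam (1 / 2 + (t : ℂ) * I - mu)).re := by
  have hA0 : 0 ≤ A := (norm_nonneg _).trans hA
  have him := abs_le.1 ((abs_im_le_norm mu).trans hA)
  have hre := abs_le.1 ((abs_re_le_norm mu).trans hA)
  rw [lam_sub]
  have e1 : ((1 / 2 + (t : ℂ) * I - mu) / 2).re = (1 / 2 - mu.re) / 2 := by simp
  have e2 : ((1 / 2 + (t : ℂ) * I - mu) / 2).im = (t - mu.im) / 2 := by simp
  have e3 : ((1 / 2 + ((t + v : ℝ) : ℂ) * I - mu) / 2).re = (1 / 2 - mu.re) / 2 := by simp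
  have e4 : ((1 / 2 + ((t + v : ℝ) : ℂ) * I - mu) / 2).im = (t + v - mu.im) / 2 := by simp
  obtain ⟨z, hz⟩ : ∃ z, z = (1 / 2 + (t : ℂ) * I - mu) / 2 := ⟨_, rfl⟩
  obtain ⟨z', hz'⟩ : ∃ z', z' = (1 / 2 + ((t + v : ℝ) : ℂ) * I - mu) / 2 := ⟨_, rfl⟩
  rw [← hz] at e1 e2
  rw [← hz'] at e3 e4
  rw [← hz, ← hz']
  refine le_trans ?_ (psi_mono (z := z) (z' := z') (by rw [e1]; linarith) (by rw [e1, e3])
    (by rw [e2]; linarith) (by rw [e2, e4]; linarith))
  rw [inv_re_eq, inv_re_eq]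
  simp only [add_re, one_re, add_im, one_im, add_zero]
  rw [e1, e2, e3, e4]
  obtain ⟨a, ha⟩ : ∃ a, a = (1 / 2 - mu.re) / 2 + 1 := ⟨_, rfl⟩
  obtain ⟨y, hy⟩ : ∃ y, y = (t - mu.im) / 2 := ⟨_, rfl⟩
  obtain ⟨y', hy'⟩ : ∃ y', y' = (t + v - mu.im) / 2 := ⟨_, rfl⟩
  rw [← ha, ← hy, ← hy']
  have ha1 : 1 ≤ a := by rw [ha]; linarith
  have ha2 : a ≤ A + 2 := by rw [ha]; linarith
  have hy1 : 1 ≤ y := by rw [hy]; linarith [him.2]
  have hyy : y' - y = v / 2 := by rw [hy, hy']; ring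
  have hy2 : y' ≤ t + A + v := by rw [hy']; linarith [him.1]
  have e5 : a / (a ^ 2 + y ^ 2) - a / (a ^ 2 + y' ^ 2) =
      a * ((y' - y) * (y' + y)) / ((a ^ 2 + y ^ 2) * (a ^ 2 + y' ^ 2)) := by
    field_simp
    ring
  have hpos : 0 < t + A + v + 2 := by linarith
  rw [e5, hyy, div_le_div_iff₀ (mul_pos (by norm_num) (pow_pos hpos 4)) (by positivity)]
  have hy3 : y ≤ y' := by linarith
  have b1 : a ^ 2 + y ^ 2 ≤ 2 * (t + A + v + 2) ^ 2 := by
    have h1 : a ^ 2 ≤ (t + A + v + 2) ^ 2 := pow_le_pow_left₀ (by linarith) (by linarith) 2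
    have h2 : y ^ 2 ≤ (t + A + v + 2) ^ 2 := pow_le_pow_left₀ (by linarith) (by linarith) 2
    linarith
  have b2 : a ^ 2 + y' ^ 2 ≤ 2 * (t + A + v + 2) ^ 2 := by
    have h1 : a ^ 2 ≤ (t + A + v + 2) ^ 2 := pow_le_pow_left₀ (by linarith) (by linarith) 2
    have h2 : y' ^ 2 ≤ (t + A + v + 2) ^ 2 := pow_le_pow_left₀ (by linarith) (by linarith) 2
    linarith
  have b3 : (a ^ 2 + y ^ 2) * (a ^ 2 + y' ^ 2) ≤ 4 * (t + A + v + 2) ^ 4 := by
    calc _ ≤ (2 * (t + A + v + 2) ^ 2) * (2 * (t + A + v + 2) ^ 2) :=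
          mul_le_mul b1 b2 (by positivity) (by positivity)
      _ = _ := by ring
  have b4 : v ≤ a * (v / 2 * (y' + y)) := by
    have h1 : v ≤ v / 2 * (y' + y) := by nlinarith
    have h2 : 0 ≤ v / 2 * (y' + y) := by
      have : 0 ≤ y' + y := by linarith
      positivity
    nlinarith
  calc v * ((a ^ 2 + y ^ 2) * (a ^ 2 + y' ^ 2)) ≤ v * (4 * (t + A + v + 2) ^ 4) :=
        mul_le_mul_of_nonneg_left b3 hv
    _ ≤ (a * (v / 2 * (y' + y))) * (4 * (t + A + v + 2) ^ 4) :=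
        mul_le_mul_of_nonneg_right b4 (by positivity)

variable {m : ℕ}

/-- the derivative of the phase increases, with an explicit lower bound -/
lemma Th_gain (hm : 1 ≤ m) {N : ℕ} {mu : Fin m → ℂ} (hmu : ∀ j, (mu j).re < 1 / 2) {A t v : ℝ}
    (hA : ∀ j, ‖mu j‖ ≤ A) (ht : A + 2 ≤ t) (hv : 0 ≤ v) :
    v / (4 * (t + A + v + 2) ^ 4) ≤ Th N mu (t + v) - Th N mu t := by
  rw [Th_eq hmu, Th_eq hmu]
  have e : Real.log N + ∑ j, 2 * (Lam (1 / 2 + ((t + v : ℝ) : ℂ) * I - mu j)).re -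
      (Real.log N + ∑ j, 2 * (Lam (1 / 2 + (t : ℂ) * I - mu j)).re) =
      ∑ j, (2 * (Lam (1 / 2 + ((t + v : ℝ) : ℂ) * I - mu j)).re -
        2 * (Lam (1 / 2 + (t : ℂ) * I - mu j)).re) := by
    rw [Finset.sum_sub_distrib]; ring
  rw [e]
  have hA0 : 0 ≤ A := (norm_nonneg _).trans (hA ⟨0, by omega⟩)
  have h0 : 0 ≤ v / (4 * (t + A + v + 2) ^ 4) := by positivity
  have h1 : ∑ _j : Fin m, v / (4 * (t + A + v + 2) ^ 4) ≤
      ∑ j, (2 * (Lam (1 / 2 + ((t + v : ℝ) : ℂ) * I - mu j)).re -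
        2 * (Lam (1 / 2 + (t : ℂ) * I - mu j)).re) :=
    Finset.sum_le_sum fun j _ => lam_gain (hmu j) (hA j) ht hv
  rw [Finset.sum_const, Finset.card_univ, Fintype.card_fin, nsmul_eq_mul] at h1
  have hm1 : (1 : ℝ) ≤ m := by exact_mod_cast hm
  nlinarith

/-- the phase increment of length `h` is not stationary -/
theorem phase_turn (hm : 1 ≤ m) {N : ℕ} (hN : 0 < N) {mu : Fin m → ℂ} (hmu : ∀ j, (mu j).re < 1 / 2)
    {root : ℂ} (hroot : ‖root‖ = 1) {A D h t : ℝ} (hA : ∀ j, ‖mu j‖ ≤ A) (hh : 0 < h) (hD4 : 4 ≤ D)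
    (hDh : 2 * h ≤ D) (hDm : 16 * m * h ^ 2 ≤ D) (ht : A + D ≤ t) :
    h ^ 2 / (8 * (t + A + 2 * h + 2) ^ 4) ≤
      ‖Y N mu root (t + h + h) * (starRingEnd ℂ) (Y N mu root (t + h)) -
        Y N mu root (t + h) * (starRingEnd ℂ) (Y N mu root t)‖ := by
  have hA0 : 0 ≤ A := (norm_nonneg _).trans (hA ⟨0, by omega⟩)
  obtain ⟨R, hR⟩ : ∃ R : ℝ → ℂ, R = fun v => Y N mu root (t + h + v) *
    (starRingEnd ℂ) (Y N mu root (t + v)) := ⟨_, rfl⟩
  have hRv : ∀ v, R v = Y N mu root (t + h + v) * (starRingEnd ℂ) (Y N mu root (t + v)) :=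
    fun v => by rw [hR]
  obtain ⟨g, hg⟩ : ∃ g : ℝ → ℝ, g = fun v => Th N mu (t + h + v) - Th N mu (t + v) := ⟨_, rfl⟩
  have hgv : ∀ v, g v = Th N mu (t + h + v) - Th N mu (t + v) := fun v => by rw [hg]
  have hRn : ∀ v, ‖R v‖ = 1 := by
    intro v
    rw [hRv, norm_mul, norm_conj, norm_Y hN hmu hroot, norm_Y hN hmu hroot, one_mul]
  have hRd : ∀ v : ℝ, HasDerivAt R (-(I * (g v : ℂ)) * R v) v := by
    intro v
    have h1 := (Y_deriv hN hmu root (t + h + v)).comp_const_add (t + h) v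
    have h2 := ((Y_deriv hN hmu root (t + v)).comp_const_add t v).star
    have h3 := h1.mul h2
    have e : R = (fun x => Y N mu root (t + h + x)) * (fun x => star (Y N mu root (t + x))) := by
      rw [hR]; rfl
    rw [e]
    refine h3.congr_deriv ?_
    simp only [Pi.mul_apply, hgv]
    have e2 : star (-(I * (Th N mu (t + v) : ℂ)) * Y N mu root (t + v)) =
        (I * (Th N mu (t + v) : ℂ)) * star (Y N mu root (t + v)) := by
      simp only [star_mul', star_neg, star_def, conj_I, conj_ofReal]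
      ring
    rw [e2]
    push_cast
    ring
  -- bounds for `g`
  have hglow : ∀ v, 0 ≤ v → v ≤ h → h / (4 * (t + A + 2 * h + 2) ^ 4) ≤ g v := by
    intro v h0 h1
    have h2 := Th_gain hm (N := N) hmu (t := t + v) (v := h) hA (by linarith) hh.le
    rw [show t + v + h = t + h + v by ring] at h2
    rw [hgv]
    refine le_trans ?_ h2
    apply div_le_div_of_nonneg_left hh.le (mul_pos (by norm_num) (pow_pos (by linarith) 4))
    have h3 : t + v + A + h + 2 ≤ t + A + 2 * h + 2 := by linarith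
    have h4 : (t + v + A + h + 2) ^ 4 ≤ (t + A + 2 * h + 2) ^ 4 :=
      pow_le_pow_left₀ (by linarith) h3 4
    linarith
  have hgup : ∀ v, 0 ≤ v → v ≤ h → |g v| ≤ 8 * m * h / D := by
    intro v h0 h1
    have h2 := Th_lip (N := N) hmu (D := D) (t := t + v) hD4 (by
      intro j
      have h3 := abs_im_le_norm (1 / 2 + ((t + v : ℝ) : ℂ) * I - mu j)
      have h4 := abs_le.1 ((abs_im_le_norm (mu j)).trans (hA j))
      have e3 : (1 / 2 + ((t + v : ℝ) : ℂ) * I - mu j).im = t + v - (mu j).im := by simp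
      rw [e3] at h3
      refine le_trans ?_ h3
      refine le_trans ?_ (le_abs_self _)
      linarith [h4.2]) (v := h) (by rw [abs_of_pos hh]; linarith)
    rw [show t + v + h = t + h + v by ring, abs_of_pos hh] at h2
    rw [hgv]
    exact h2
  -- the rotated curve
  obtain ⟨G, hG⟩ : ∃ G : ℝ → ℂ, G = fun v => R v * (starRingEnd ℂ) (R 0) := ⟨_, rfl⟩
  have hGv : ∀ v, G v = R v * (starRingEnd ℂ) (R 0) := fun v => by rw [hG]
  have hG0 : G 0 = 1 := by
    rw [hGv, mul_conj, normSq_eq_norm_sq, hRn]; simp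
  have hGn : ∀ v, ‖G v‖ = 1 := fun v => by rw [hGv, norm_mul, norm_conj, hRn, hRn, one_mul]
  have hGd : ∀ v : ℝ, HasDerivAt G (-(I * (g v : ℂ)) * G v) v := by
    intro v
    have h1 := (hRd v).mul_const ((starRingEnd ℂ) (R 0))
    rw [hG]
    refine h1.congr_deriv ?_
    ring
  have hDpos : 0 < D := by linarith
  have hclose : ∀ v, 0 ≤ v → v ≤ h → ‖G v - 1‖ ≤ 1 / 2 := by
    intro v h0 h1
    have hm' := (convex_Icc (0:ℝ) v).norm_image_sub_le_of_norm_hasDerivWithin_le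
      (f := G) (f' := fun v => -(I * (g v : ℂ)) * G v) (C := 8 * m * h / D)
      (fun x _ => (hGd x).hasDerivWithinAt) (by
        intro x hx
        rw [norm_mul, hGn, mul_one, norm_neg, norm_mul, norm_I, one_mul, norm_real, Real.norm_eq_abs]
        exact hgup x hx.1 (hx.2.trans h1)) (x := 0) (y := v) (left_mem_Icc.2 h0) (right_mem_Icc.2 h0)
    rw [hG0, sub_zero, Real.norm_eq_abs, abs_of_nonneg h0] at hm'
    refine hm'.trans ?_
    calc 8 * m * h / D * v ≤ 8 * m * h / D * h := by gcongr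
      _ = 8 * m * h ^ 2 / D := by ring
      _ ≤ 1 / 2 := by
        rw [div_le_div_iff₀ hDpos (by norm_num)]
        linarith
  -- the imaginary part decreases
  have him : (G h).im ≤ -(h / (8 * (t + A + 2 * h + 2) ^ 4)) * h := by
    have hd : ∀ x ∈ Icc (0:ℝ) h, HasDerivWithinAt (fun v => (G v).im) (-(g x * (G x).re)) (Icc 0 h) x := by
      intro x _
      have h1 := (hGd x)
      have h2 : HasDerivAt (fun v => (G v).im) (-(I * (g x : ℂ)) * G x).im x :=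
        (imCLM.hasFDerivAt.comp_hasDerivAt x h1)
      refine (h2.congr_deriv ?_).hasDerivWithinAt
      simp
    have hle := Convex.image_sub_le_mul_sub_of_deriv_le (D := Icc (0:ℝ) h) (convex_Icc 0 h)
      (f := fun v => (G v).im) (C := -(h / (8 * (t + A + 2 * h + 2) ^ 4)))
      (fun x hx => (hd x hx).continuousWithinAt) (by
        intro x hx
        rw [interior_Icc] at hx
        have h1 : HasDerivAt (fun v => (G v).im) (-(I * (g x : ℂ)) * G x).im x :=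
          (imCLM.hasFDerivAt.comp_hasDerivAt x (hGd x))
        exact h1.differentiableAt.differentiableWithinAt) (by
        intro x hx
        rw [interior_Icc] at hx
        have h1 : HasDerivAt (fun v => (G v).im) (-(I * (g x : ℂ)) * G x).im x :=
          (imCLM.hasFDerivAt.comp_hasDerivAt x (hGd x))
        rw [h1.deriv]
        have e : (-(I * (g x : ℂ)) * G x).im = -(g x * (G x).re) := by simp
        rw [e]
        have h2 := hglow x hx.1.le hx.2.le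
        have h3 := hclose x hx.1.le hx.2.le
        have h4 : 1 / 2 ≤ (G x).re := by
          have h5 := abs_le.1 ((abs_re_le_norm (G x - 1)).trans h3)
          rw [sub_re, one_re] at h5
          linarith [h5.1]
        have h6 : 0 ≤ h / (4 * (t + A + 2 * h + 2) ^ 4) := by positivity
        have e7 : h / (8 * (t + A + 2 * h + 2) ^ 4) = h / (4 * (t + A + 2 * h + 2) ^ 4) / 2 := by
          field_simp; norm_num
        rw [e7]
        nlinarith) 0 (left_mem_Icc.2 hh.le) h (right_mem_Icc.2 hh.le) hh.le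
    simp only [hG0, one_im, sub_zero] at hle
    exact hle
  have hfin : h ^ 2 / (8 * (t + A + 2 * h + 2) ^ 4) ≤ ‖G h - 1‖ := by
    have h1 := abs_im_le_norm (G h - 1)
    rw [sub_im, one_im, sub_zero] at h1
    refine le_trans ?_ h1
    refine le_trans ?_ (neg_le_abs _)
    have e : -(h / (8 * (t + A + 2 * h + 2) ^ 4)) * h = -(h ^ 2 / (8 * (t + A + 2 * h + 2) ^ 4)) := by
      ring
    rw [e] at him
    linarith
  have e1 : ‖G h - 1‖ = ‖R h - R 0‖ := by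
    have e2 : G h - 1 = (R h - R 0) * (starRingEnd ℂ) (R 0) := by
      rw [← hG0, hGv, hGv]; ring
    rw [e2, norm_mul, norm_conj, hRn, mul_one]
  rw [e1, hRv, hRv, add_zero, add_zero] at hfin
  exact hfin

/-- three values in arithmetic progression -/
theorem three_values {N : ℕ} (hN : 0 < N) {mu : Fin m → ℂ} (hmu : ∀ j, (mu j).re < 1 / 2)
    {root : ℂ} (hroot : ‖root‖ = 1) {f : ℂ → ℂ}
    (hfe : ∀ s : ℂ, f s * ∏ j, (Gammaℝ (1 - s - (starRingEnd ℂ) (mu j)))⁻¹ =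
      root * (N : ℂ) ^ (1 / 2 - s) * (starRingEnd ℂ) (f (1 - (starRingEnd ℂ) s)) *
        ∏ j, (Gammaℝ (s - mu j))⁻¹) (t h : ℝ) :
    ‖Y N mu root (t + h + h) * (starRingEnd ℂ) (Y N mu root (t + h)) -
        Y N mu root (t + h) * (starRingEnd ℂ) (Y N mu root t)‖ *
      ‖f (1 / 2 + ((t + h : ℝ) : ℂ) * I)‖ ≤
      2 * ‖f (1 / 2 + ((t + h : ℝ) : ℂ) * I) - f (1 / 2 + (t : ℂ) * I)‖ +
      2 * ‖f (1 / 2 + ((t + h + h : ℝ) : ℂ) * I) - f (1 / 2 + ((t + h : ℝ) : ℂ) * I)‖ := by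
  have hline : ∀ x : ℝ, f (1 / 2 + (x : ℂ) * I) = Y N mu root x * (starRingEnd ℂ) (f (1 / 2 + (x : ℂ) * I)) := by
    intro x
    have h1 := fe_XD hfe (reg_line hmu (s := 1 / 2 + (x : ℂ) * I) (by simp))
    have e : 1 - (starRingEnd ℂ) (1 / 2 + (x : ℂ) * I) = 1 / 2 + (x : ℂ) * I := by
      apply Complex.ext
      · simp; norm_num
      · simp
    rw [e] at h1
    exact h1
  obtain ⟨F0, hF0⟩ : ∃ F0, F0 = f (1 / 2 + (t : ℂ) * I) := ⟨_, rfl⟩
  obtain ⟨F1, hF1⟩ : ∃ F1, F1 = f (1 / 2 + ((t + h : ℝ) : ℂ) * I) := ⟨_, rfl⟩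
  obtain ⟨F2, hF2⟩ : ∃ F2, F2 = f (1 / 2 + ((t + h + h : ℝ) : ℂ) * I) := ⟨_, rfl⟩
  obtain ⟨Y0, hY0⟩ : ∃ Y0, Y0 = Y N mu root t := ⟨_, rfl⟩
  obtain ⟨Y1, hY1⟩ : ∃ Y1, Y1 = Y N mu root (t + h) := ⟨_, rfl⟩
  obtain ⟨Y2, hY2⟩ : ∃ Y2, Y2 = Y N mu root (t + h + h) := ⟨_, rfl⟩
  have f0 := hline t
  have f1 := hline (t + h)
  have f2 := hline (t + h + h)
  have n0 := norm_Y hN hmu hroot t
  have n1 := norm_Y hN hmu hroot (t + h)
  have n2 := norm_Y hN hmu hroot (t + h + h)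
  rw [← hF0, ← hY0] at f0
  rw [← hF1, ← hY1] at f1
  rw [← hF2, ← hY2] at f2
  rw [← hY0] at n0
  rw [← hY1] at n1
  rw [← hY2] at n2
  rw [← hF0, ← hF1, ← hF2, ← hY0, ← hY1, ← hY2]
  have q0 : Y0 * (starRingEnd ℂ) Y0 = 1 := by rw [mul_conj, normSq_eq_norm_sq, n0]; simp
  have q1 : Y1 * (starRingEnd ℂ) Y1 = 1 := by rw [mul_conj, normSq_eq_norm_sq, n1]; simp
  -- the first increment, seen from its end
  have e1 : (Y1 - Y0) * (starRingEnd ℂ) F1 = (F1 - F0) - Y0 * (starRingEnd ℂ) (F1 - F0) := by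
    rw [map_sub]
    linear_combination (-1 : ℂ) * f1 + f0
  have h1 : ‖Y1 - Y0‖ * ‖F1‖ ≤ 2 * ‖F1 - F0‖ := by
    rw [← norm_conj F1, ← norm_mul, e1]
    refine (norm_sub_le _ _).trans ?_
    rw [norm_mul, norm_conj, n0, one_mul]
    linarith
  have e2 : (Y2 - Y1) * (starRingEnd ℂ) F1 = (F2 - F1) - Y2 * (starRingEnd ℂ) (F2 - F1) := by
    rw [map_sub]
    linear_combination (-1 : ℂ) * f2 + f1
  have h2 : ‖Y2 - Y1‖ * ‖F1‖ ≤ 2 * ‖F2 - F1‖ := by
    rw [← norm_conj F1, ← norm_mul, e2]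
    refine (norm_sub_le _ _).trans ?_
    rw [norm_mul, norm_conj, n2, one_mul]
    linarith
  have h3 : ‖Y2 * (starRingEnd ℂ) Y1 - Y1 * (starRingEnd ℂ) Y0‖ ≤ ‖Y2 - Y1‖ + ‖Y1 - Y0‖ := by
    have e3 : Y2 * (starRingEnd ℂ) Y1 - Y1 * (starRingEnd ℂ) Y0 =
        (Y2 - Y1) * (starRingEnd ℂ) Y1 - (Y1 - Y0) * (starRingEnd ℂ) Y0 := by
      linear_combination q1 - q0
    rw [e3]
    refine (norm_sub_le _ _).trans ?_
    rw [norm_mul, norm_mul, norm_conj, norm_conj, n1, n0, mul_one, mul_one]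
  calc _ ≤ (‖Y2 - Y1‖ + ‖Y1 - Y0‖) * ‖F1‖ := mul_le_mul_of_nonneg_right h3 (norm_nonneg _)
    _ = ‖Y1 - Y0‖ * ‖F1‖ + ‖Y2 - Y1‖ * ‖F1‖ := by ring
    _ ≤ _ := add_le_add h1 h2

end Pool.Agent.U645.TL
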