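import Mathlib
import Pool.Agent.R747.TL.Defs

/-!
# Families of functions with a functional equation: the abstract properties used for the two lengths theorem
-/

set_option autoImplicit false

open Complex Filter Topology Set

namespace Pool.Agent.U645.TL

open Pool.Agent.R747.TL (dz)

/-- the value on the critical line -/
noncomputable def vl {ι : Type*} (f : ι → ℂ → ℂ) (i : ι) (t : ℝ) : ℂ := f i (1 / 2 + (t : ℂ) * I)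

/-- a family of entire functions of polynomial growth in the conductor, which at some point of every long
arithmetic progression satisfies the inequality for all lengths -/
structure TF {ι : Type*} (f : ι → ℂ → ℂ) (X : ι → ℝ → ℝ) : Prop where
  X1 : ∀ i T, 1 ≤ X i T
  Xsh : ∀ i t u, X i (t + u) ≤ (1 + |u|) * X i t
  diff : ∀ i, Differentiable ℂ (f i)
  crude : ∃ C A : ℝ, 0 ≤ C ∧ 0 ≤ A ∧ ∀ (i : ι) (s : ℂ), -1 / 4 ≤ s.re → ‖f i s‖ ≤ C * X i s.im ^ A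
  right : ∀ ε : ℝ, 0 < ε → ∃ B : ℝ, 0 ≤ B ∧ ∀ (i : ι) (s : ℂ), 2 ≤ s.re → ‖f i s‖ ≤ B * X i s.im ^ ε
  good : ∃ K A D₀ : ℝ, 0 ≤ K ∧ 0 ≤ A ∧ 4 ≤ D₀ ∧ ∀ D : ℝ, D₀ ≤ D → ∀ h₀ : ℝ, h₀ ≠ 0 → ∀ (i : ι) (T : ℝ),
    ∃ (k : ℕ) (Λ : ℝ), (k : ℝ) ≤ K * D * (1 + 1 / |h₀|) ∧ Real.log D / 2 ≤ Λ ∧
      Λ ≤ A * (1 + Real.log (X i (T + k * h₀))) ∧ ∀ u : ℝ,
        4 * dz (u * Λ / (2 * Real.pi)) * ‖vl f i (T + k * h₀)‖ ≤
          2 * ‖vl f i (T + k * h₀ + u) - vl f i (T + k * h₀)‖ +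
            K * (1 + u ^ 2) / D * ‖vl f i (T + k * h₀)‖

/-- the same without the last property -/
structure TF0 {ι : Type*} (f : ι → ℂ → ℂ) (X : ι → ℝ → ℝ) : Prop where
  X1 : ∀ i T, 1 ≤ X i T
  Xsh : ∀ i t u, X i (t + u) ≤ (1 + |u|) * X i t
  diff : ∀ i, Differentiable ℂ (f i)
  crude : ∃ C A : ℝ, 0 ≤ C ∧ 0 ≤ A ∧ ∀ (i : ι) (s : ℂ), -1 / 4 ≤ s.re → ‖f i s‖ ≤ C * X i s.im ^ A
  right : ∀ ε : ℝ, 0 < ε → ∃ B : ℝ, 0 ≤ B ∧ ∀ (i : ι) (s : ℂ), 2 ≤ s.re → ‖f i s‖ ≤ B * X i s.im ^ ε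

theorem TF.to0 {ι : Type*} {f : ι → ℂ → ℂ} {X : ι → ℝ → ℝ} (H : TF f X) : TF0 f X :=
  ⟨H.X1, H.Xsh, H.diff, H.crude, H.right⟩

end Pool.Agent.U645.TL
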