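import Mathlib
import Pool.Agent.U645.TL.Fam

set_option autoImplicit false

open Complex Filter Topology Set

namespace Pool.Agent.U645.TL

variable {ι : Type*}

/-- `f i (1/2 + iT) = O(X^ε W)` for every `ε > 0` -/
def Expo (f : ι → ℂ → ℂ) (X W : ι → ℝ → ℝ) : Prop := ∀ ε : ℝ, 0 < ε → ∃ B : ℝ, ∀ (i : ι) (T : ℝ),
  ‖vl f i T‖ ≤ B * (X i T ^ ε * W i T)

/-- `f i (1/2 + i(T + h)) - f i (1/2 + iT) = O(X^ε W)` for every `ε > 0` -/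
def Incr (f : ι → ℂ → ℂ) (X W : ι → ℝ → ℝ) (h : ℝ) : Prop := ∀ ε : ℝ, 0 < ε → ∃ B : ℝ,
  ∀ (i : ι) (T : ℝ), ‖vl f i (T + h) - vl f i T‖ ≤ B * (X i T ^ ε * W i T)

/-- `∫_T^{T+h} f i (1/2 + iu) du = O(X^ε W)` for every `ε > 0` -/
def Mean (f : ι → ℂ → ℂ) (X W : ι → ℝ → ℝ) (h : ℝ) : Prop := ∀ ε : ℝ, 0 < ε → ∃ B : ℝ,
  ∀ (i : ι) (T : ℝ), ‖∫ u in T..(T + h), vl f i u‖ ≤ B * (X i T ^ ε * W i T)

/-- weights -/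
structure Wt (W : ι → ℝ → ℝ) (a : ℝ) : Prop where
  a0 : 0 ≤ a
  W1 : ∀ i t, 1 ≤ W i t
  Wsh : ∀ i t u, W i (t + u) ≤ (1 + |u|) ^ a * W i t

end Pool.Agent.U645.TL
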