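import Mathlib
import Pool.Agent.U645.TL.Def

/-!
# Shifts of the conductor
-/

set_option autoImplicit false

open Complex Filter Topology Set MeasureTheory

namespace Pool.Agent.U645.TL

variable {ι : Type*} {f : ι → ℂ → ℂ} {X W : ι → ℝ → ℝ} {a : ℝ}

lemma XW0_pos (H : TF0 f X) (hW : Wt W a) (ε : ℝ) (i : ι) (t : ℝ) : 0 < X i t ^ ε * W i t := by
  have h1 := H.X1 i t
  have h2 := hW.W1 i t
  have : 0 < X i t ^ ε := Real.rpow_pos_of_pos (by linarith) _
  nlinarith

lemma XW0_one (H : TF0 f X) (hW : Wt W a) {ε : ℝ} (hε : 0 ≤ ε) (i : ι) (t : ℝ) :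
    1 ≤ X i t ^ ε * W i t := by
  have h1 := Real.one_le_rpow (H.X1 i t) hε
  have h2 := hW.W1 i t
  nlinarith

lemma XW0_shift (H : TF0 f X) (hW : Wt W a) {ε : ℝ} (hε : 0 ≤ ε) (i : ι) (t u : ℝ) :
    X i (t + u) ^ ε * W i (t + u) ≤ (1 + |u|) ^ (ε + a) * (X i t ^ ε * W i t) := by
  have h1 : X i (t + u) ^ ε ≤ (1 + |u|) ^ ε * X i t ^ ε := by
    rw [← Real.mul_rpow (by positivity) (by linarith [H.X1 i t])]
    exact Real.rpow_le_rpow (by linarith [H.X1 i (t + u)]) (H.Xsh i t u) hε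
  have h2 := hW.Wsh i t u
  have h3 : 0 < 1 + |u| := by positivity
  have h4 : 0 ≤ X i t ^ ε := Real.rpow_nonneg (by linarith [H.X1 i t]) _
  calc X i (t + u) ^ ε * W i (t + u) ≤ ((1 + |u|) ^ ε * X i t ^ ε) * ((1 + |u|) ^ a * W i t) :=
        mul_le_mul h1 h2 (by linarith [hW.W1 i (t + u)]) (by positivity)
    _ = _ := by rw [Real.rpow_add h3]; ring

lemma nonneg0 {F : ι → ℝ → ℝ} (H : TF0 f X) (hW : Wt W a) {ε B : ℝ}
    (h : ∀ (i : ι) (T : ℝ), F i T ≤ B * (X i T ^ ε * W i T)) :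
    ∀ (i : ι) (T : ℝ), F i T ≤ |B| * (X i T ^ ε * W i T) := fun i T =>
  (h i T).trans (mul_le_mul_of_nonneg_right (le_abs_self B) (XW0_pos H hW ε i T).le)

lemma expo_mean0 (H : TF0 f X) (hW : Wt W a) (h1 : Expo f X W) (h : ℝ) : Mean f X W h := by
  intro ε hε
  obtain ⟨B, hB⟩ := h1 ε hε
  have hB := nonneg0 H hW hB
  have ha := hW.a0
  refine ⟨|B| * (1 + |h|) ^ (ε + a) * |h|, fun i T => ?_⟩
  have h2 := intervalIntegral.norm_integral_le_of_norm_le_const (a := T) (b := T + h) (f := vl f i)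
    (C := |B| * ((1 + |h|) ^ (ε + a) * (X i T ^ ε * W i T))) (by
      intro u hu
      have h3 : |u - T| ≤ |h| := by
        rw [Set.mem_uIoc] at hu
        rcases hu with ⟨h4, h5⟩ | ⟨h4, h5⟩
        · rw [abs_of_pos (by linarith)]
          exact le_trans (by linarith) (le_abs_self h)
        · rw [abs_of_nonpos (by linarith)]
          exact le_trans (by linarith) (neg_le_abs h)
      have h4 := XW0_shift H hW hε.le i T (u - T)
      rw [show T + (u - T) = u by ring] at h4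
      have h5 : (1 + |u - T|) ^ (ε + a) ≤ (1 + |h|) ^ (ε + a) :=
        Real.rpow_le_rpow (by positivity) (by linarith) (by linarith)
      have h6 := (XW0_pos H hW ε i T).le
      calc ‖vl f i u‖ ≤ |B| * (X i u ^ ε * W i u) := hB i u
        _ ≤ |B| * ((1 + |u - T|) ^ (ε + a) * (X i T ^ ε * W i T)) := by gcongr
        _ ≤ _ := by gcongr)
  refine h2.trans (le_of_eq ?_)
  rw [show T + h - T = h by ring]
  ring

end Pool.Agent.U645.TL
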