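import Mathlib
import Pool.Agent.U645.TL.Z0
import Pool.Agent.R747.TL.D
import Pool.Agent.H855R2.SF.Base

/-!
# Means and increments, uniform in the family
-/

set_option autoImplicit false

open Complex Filter Topology Set MeasureTheory

namespace Pool.Agent.U645.TL

open Pool.Agent.R747.TL (norm_gauss)
open H855R2.SF (poly_gauss)

variable {ι : Type*} {f : ι → ℂ → ℂ} {X W : ι → ℝ → ℝ} {a : ℝ}

/-- the means, as a function of `s` -/
noncomputable def SS (g : ℂ → ℂ) (h : ℝ) (s : ℂ) : ℂ := ∫ u in (0:ℝ)..h, g (s + (u : ℂ) * I)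

lemma deriv_cont {g : ℂ → ℂ} (hg : Differentiable ℂ g) : Continuous (deriv g) := by
  have h1 := (hg.differentiableOn (s := univ)).deriv isOpen_univ
  rw [← continuousOn_univ]
  exact h1.continuousOn

lemma SS_hasDerivAt {g : ℂ → ℂ} (hg : Differentiable ℂ g) (h : ℝ) (s : ℂ) :
    HasDerivAt (SS g h) (∫ u in (0:ℝ)..h, deriv g (s + (u : ℂ) * I)) s := by
  have hK : IsCompact ((fun p : ℂ × ℝ => p.1 + (p.2 : ℂ) * I) '' (Metric.closedBall s 1 ×ˢ uIcc 0 h)) := by
    apply IsCompact.image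
    · exact (isCompact_closedBall s 1).prod isCompact_uIcc
    · fun_prop
  obtain ⟨M, hM⟩ := hK.exists_bound_of_continuousOn (f := deriv g) (deriv_cont hg).continuousOn
  have hcont : ∀ a : ℂ, Continuous (fun u : ℝ => g (a + (u : ℂ) * I)) := fun a =>
    hg.continuous.comp (by fun_prop)
  have hcont' : Continuous (fun u : ℝ => deriv g (s + (u : ℂ) * I)) :=
    (deriv_cont hg).comp (by fun_prop)
  have key := intervalIntegral.hasDerivAt_integral_of_dominated_loc_of_deriv_le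
    (F := fun (a : ℂ) (u : ℝ) => g (a + (u : ℂ) * I))
    (F' := fun (a : ℂ) (u : ℝ) => deriv g (a + (u : ℂ) * I))
    (x₀ := s) (a := 0) (b := h) (μ := MeasureTheory.volume) (bound := fun _ => M)
    (s := Metric.ball s 1) (Metric.ball_mem_nhds s one_pos)
    (Eventually.of_forall fun a => (hcont a).aestronglyMeasurable)
    ((hcont s).intervalIntegrable _ _)
    (hcont'.aestronglyMeasurable)
    (by
      refine Eventually.of_forall fun u hu a ha => ?_
      apply hM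
      exact ⟨(a, u), ⟨Metric.ball_subset_closedBall ha, uIoc_subset_uIcc hu⟩, rfl⟩)
    (intervalIntegrable_const)
    (by
      refine Eventually.of_forall fun u hu a ha => ?_
      exact ((hg _).hasDerivAt).comp_add_const a ((u : ℂ) * I))
  exact key.2

lemma vl_cont (H : TF0 f X) (i : ι) : Continuous (vl f i) :=
  (H.diff i).continuous.comp (by fun_prop)

lemma SS_line (i : ι) (h t : ℝ) : SS (f i) h (1 / 2 + (t : ℂ) * I) = ∫ u in t..(t + h), vl f i u := by
  unfold SS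
  have h1 : (fun u : ℝ => f i (1 / 2 + (t : ℂ) * I + (u : ℂ) * I)) = fun u : ℝ => vl f i (t + u) := by
    ext u
    unfold vl
    congr 1
    push_cast
    ring
  rw [h1, intervalIntegral.integral_comp_add_left (fun x => vl f i x)]
  simp

lemma SS_deriv_line (H : TF0 f X) (i : ι) (h t : ℝ) :
    ‖deriv (SS (f i) h) (1 / 2 + (t : ℂ) * I)‖ = ‖vl f i (t + h) - vl f i t‖ := by
  have h1 := SS_hasDerivAt (H.diff i) h (1 / 2 + (t : ℂ) * I)
  have h2 : HasDerivAt (fun x : ℝ => 1 / 2 + (x : ℂ) * I) I t := by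
    simpa using ((ofRealCLM.hasDerivAt (x := t)).mul_const I).const_add (1 / 2 : ℂ)
  have h3 := h1.comp t h2
  have h4 : HasDerivAt (fun x : ℝ => ∫ u in x..(x + h), vl f i u) (vl f i (t + h) - vl f i t) t := by
    have hc := vl_cont H i
    have e : (fun x : ℝ => ∫ u in x..(x + h), vl f i u) =
        fun x : ℝ => (∫ u in (0:ℝ)..(x + h), vl f i u) - ∫ u in (0:ℝ)..x, vl f i u := by
      ext x
      rw [intervalIntegral.integral_interval_sub_left (hc.intervalIntegrable _ _)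
        (hc.intervalIntegrable _ _)]
    rw [e]
    have a1 := intervalIntegral.integral_hasDerivAt_right (hc.intervalIntegrable 0 t)
      (hc.stronglyMeasurableAtFilter _ _) hc.continuousAt
    have a2 := intervalIntegral.integral_hasDerivAt_right (hc.intervalIntegrable 0 (t + h))
      (hc.stronglyMeasurableAtFilter _ _) hc.continuousAt
    exact (a2.comp_add_const t h).sub a1
  have h5 : (SS (f i) h ∘ fun x : ℝ => 1 / 2 + (x : ℂ) * I) =
      fun x : ℝ => ∫ u in x..(x + h), vl f i u := by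
    ext x
    exact SS_line i h x
  rw [h5] at h3
  have h6 := h3.unique h4
  rw [h1.deriv, ← h6, norm_mul, norm_I, mul_one]

lemma abs_uIoc {h u : ℝ} (hu : u ∈ uIoc 0 h) : |u| ≤ |h| := by
  rw [Set.mem_uIoc] at hu
  rcases hu with ⟨h6, h7⟩ | ⟨h6, h7⟩
  · rw [abs_of_pos h6]; exact h7.trans (le_abs_self h)
  · rw [abs_of_nonpos h7]; exact le_trans (by linarith) (neg_le_abs h)

lemma exp_two {y : ℝ} (hy : y ≤ 1 / 2) : Real.exp y ≤ 2 := by
  have h6 : Real.exp (1 / 2) ≤ 2 := by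
    have h7 : Real.exp (1 / 2) ^ 2 = Real.exp 1 := by
      rw [← Real.exp_nat_mul]; norm_num
    have h8 := Real.exp_one_lt_d9
    nlinarith [Real.exp_pos (1 / 2)]
  exact (Real.exp_le_exp.2 hy).trans h6

/-- a weighted three lines theorem to the right -/
lemma three_right {G : ℂ → ℂ} (hG : Differentiable ℂ G) {u C A B : ℝ} (hu : 1 / 2 < u)
    (hb : ∀ s : ℂ, 1 / 2 ≤ s.re → s.re ≤ u → ‖G s‖ ≤ C) (h1 : ∀ s : ℂ, s.re = 1 / 2 → ‖G s‖ ≤ A)
    (h2 : ∀ s : ℂ, s.re = u → ‖G s‖ ≤ B) {s : ℂ} (hs1 : 1 / 2 ≤ s.re) (hs2 : s.re ≤ u) :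
    ‖G s‖ ≤ A ^ (1 - (s.re - 1 / 2) / (u - 1 / 2)) * B ^ ((s.re - 1 / 2) / (u - 1 / 2)) :=
  Complex.HadamardThreeLines.norm_le_interp_of_mem_verticalClosedStrip' (f := G)
    (z := s) (a := A) (b := B) (l := 1 / 2) (u := u) hu ⟨hs1, hs2⟩
    hG.diffContOnCl
    (by
      refine ⟨C, ?_⟩
      rintro _ ⟨z, hz, rfl⟩
      exact hb z hz.1 hz.2)
    (fun z hz => h1 z hz) (fun z hz => h2 z hz)

lemma three_left {G : ℂ → ℂ} (hG : Differentiable ℂ G) {l C A B : ℝ} (hl : l < 1 / 2)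
    (hb : ∀ s : ℂ, l ≤ s.re → s.re ≤ 1 / 2 → ‖G s‖ ≤ C) (h1 : ∀ s : ℂ, s.re = 1 / 2 → ‖G s‖ ≤ A)
    (h2 : ∀ s : ℂ, s.re = l → ‖G s‖ ≤ B) {s : ℂ} (hs1 : l ≤ s.re) (hs2 : s.re ≤ 1 / 2) :
    ‖G s‖ ≤ B ^ (1 - (s.re - l) / (1 / 2 - l)) * A ^ ((s.re - l) / (1 / 2 - l)) :=
  Complex.HadamardThreeLines.norm_le_interp_of_mem_verticalClosedStrip' (f := G)
    (z := s) (a := B) (b := A) (l := l) (u := 1 / 2) hl ⟨hs1, hs2⟩
    hG.diffContOnCl
    (by
      refine ⟨C, ?_⟩
      rintro _ ⟨z, hz, rfl⟩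
      exact hb z hz.1 hz.2)
    (fun z hz => h2 z hz) (fun z hz => h1 z hz)

theorem mean_incr0 (H : TF0 f X) (hW : Wt W a) {h : ℝ} (Hm : Mean f X W h) : Incr f X W h := by
  intro ε hε
  have ha := hW.a0
  obtain ⟨Cc, Ac, hCc, hAc, hcr⟩ := H.crude
  obtain ⟨B0, hB0⟩ := Hm (ε / 2) (half_pos hε)
  have hB0 := nonneg0 H hW hB0
  obtain ⟨M1, hM11, hM1⟩ := poly_gauss (ε / 2 + a)
  obtain ⟨M2, hM21, hM2⟩ := poly_gauss Ac
  obtain ⟨C3, hC3⟩ : ∃ C3, C3 = |B0| * M1 + 2 * (|h| * (Cc * (1 + |h|) ^ Ac)) * M2 + 1 := ⟨_, rfl⟩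
  have hC30 : 0 < C3 := by
    rw [hC3]
    have : 0 ≤ |B0| * M1 := by positivity
    have : 0 ≤ 2 * (|h| * (Cc * (1 + |h|) ^ Ac)) * M2 := by positivity
    linarith
  obtain ⟨δ, hδ0, hδ1, hδ2⟩ : ∃ δ : ℝ, 0 < δ ∧ δ ≤ 1 / 8 ∧ 4 * δ * Ac ≤ ε / 2 := by
    refine ⟨min (1 / 8) (ε / (8 * (Ac + 1))), by positivity, min_le_left _ _, ?_⟩
    have h1 : min (1 / 8) (ε / (8 * (Ac + 1))) ≤ ε / (8 * (Ac + 1)) := min_le_right _ _
    calc 4 * min (1 / 8) (ε / (8 * (Ac + 1))) * Ac ≤ 4 * (ε / (8 * (Ac + 1))) * (Ac + 1) := by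
          gcongr; linarith
      _ = ε / 2 := by field_simp; norm_num
  refine ⟨Real.exp 1 * C3 / δ, fun i T => ?_⟩
  obtain ⟨x, hx⟩ : ∃ x, x = X i T := ⟨_, rfl⟩
  rw [← hx]
  have hx1 : 1 ≤ x := by rw [hx]; exact H.X1 i T
  have hx0 : 0 < x := by linarith
  obtain ⟨w, hw⟩ : ∃ w, w = W i T := ⟨_, rfl⟩
  rw [← hw]
  have hw1 : 1 ≤ w := by rw [hw]; exact hW.W1 i T
  have hw0 : 0 < w := by linarith
  have hXt : ∀ t : ℝ, X i t ≤ (1 + |t - T|) * x := by
    intro t
    have := H.Xsh i T (t - T)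
    rwa [show T + (t - T) = t by ring, ← hx] at this
  have hG : Differentiable ℂ (fun s => SS (f i) h s * cexp ((s - (1 / 2 + (T : ℂ) * I)) ^ 2)) := by
    intro s
    exact ((SS_hasDerivAt (H.diff i) h s).differentiableAt).mul (by fun_prop)
  obtain ⟨G, hGd⟩ : ∃ G : ℂ → ℂ, G = fun s => SS (f i) h s * cexp ((s - (1 / 2 + (T : ℂ) * I)) ^ 2) :=
    ⟨_, rfl⟩
  rw [← hGd] at hG
  have hGn : ∀ s, ‖G s‖ = ‖SS (f i) h s‖ * Real.exp ((s.re - 1 / 2) ^ 2 - (s.im - T) ^ 2) := by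
    intro s
    rw [hGd]
    simp only
    rw [norm_mul, norm_gauss]
  -- growth
  have hgr : ∀ s : ℂ, 1 / 4 ≤ s.re → ‖SS (f i) h s‖ ≤
      |h| * (Cc * (1 + |h|) ^ Ac) * ((1 + |s.im - T|) ^ Ac * x ^ Ac) := by
    intro s hs
    unfold SS
    have h3 := intervalIntegral.norm_integral_le_of_norm_le_const (a := 0) (b := h)
      (f := fun u : ℝ => f i (s + (u : ℂ) * I))
      (C := Cc * ((1 + |h|) ^ Ac * ((1 + |s.im - T|) ^ Ac * x ^ Ac))) (by
        intro u hu
        have h4 := hcr i (s + (u : ℂ) * I) (by simp; linarith)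
        have e : (s + (u : ℂ) * I).im = s.im + u := by simp
        rw [e] at h4
        refine h4.trans (mul_le_mul_of_nonneg_left ?_ hCc)
        rw [← Real.mul_rpow (by positivity) hx0.le, ← Real.mul_rpow (by positivity) (by positivity)]
        apply Real.rpow_le_rpow (by linarith [H.X1 i (s.im + u)]) _ hAc
        have h5 := H.Xsh i s.im u
        have h6 := hXt s.im
        have h7 := abs_uIoc hu
        calc X i (s.im + u) ≤ (1 + |u|) * X i s.im := h5
          _ ≤ (1 + |h|) * ((1 + |s.im - T|) * x) := by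
            apply mul_le_mul (by linarith) h6 (by linarith [H.X1 i s.im]) (by positivity))
    refine h3.trans (le_of_eq ?_)
    rw [sub_zero]; ring
  have hbd : ∀ s : ℂ, 1 / 4 ≤ s.re → s.re ≤ 3 / 4 → ‖G s‖ ≤ C3 * (x ^ (ε / 2 + Ac) * w) := by
    intro s h1 h2
    rw [hGn]
    have h4 : Real.exp ((s.re - 1 / 2) ^ 2 - (s.im - T) ^ 2) ≤ 2 * Real.exp (-(s.im - T) ^ 2) := by
      rw [sub_eq_add_neg, Real.exp_add]
      apply mul_le_mul_of_nonneg_right _ (Real.exp_pos _).le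
      exact exp_two (by nlinarith)
    have h5 := hM2 (s.im - T)
    have h6 : x ^ Ac ≤ x ^ (ε / 2 + Ac) * w := by
      have h7 : x ^ Ac ≤ x ^ (ε / 2 + Ac) := Real.rpow_le_rpow_of_exponent_le hx1 (by linarith)
      have h8 : 0 ≤ x ^ (ε / 2 + Ac) := by positivity
      nlinarith
    calc ‖SS (f i) h s‖ * Real.exp ((s.re - 1 / 2) ^ 2 - (s.im - T) ^ 2)
        ≤ (|h| * (Cc * (1 + |h|) ^ Ac) * ((1 + |s.im - T|) ^ Ac * x ^ Ac)) *
            (2 * Real.exp (-(s.im - T) ^ 2)) :=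
          mul_le_mul (hgr s h1) h4 (Real.exp_pos _).le (by positivity)
      _ = 2 * (|h| * (Cc * (1 + |h|) ^ Ac)) *
            ((1 + |s.im - T|) ^ Ac * Real.exp (-(s.im - T) ^ 2)) * x ^ Ac := by ring
      _ ≤ 2 * (|h| * (Cc * (1 + |h|) ^ Ac)) * M2 * (x ^ (ε / 2 + Ac) * w) := by
          apply mul_le_mul (mul_le_mul_of_nonneg_left h5 (by positivity)) h6 (by positivity)
            (by positivity)
      _ ≤ C3 * (x ^ (ε / 2 + Ac) * w) := by
          apply mul_le_mul_of_nonneg_right _ (by positivity)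
          have : 0 ≤ |B0| * M1 := by positivity
          rw [hC3]; linarith
  have hline : ∀ s : ℂ, s.re = 1 / 2 → ‖G s‖ ≤ C3 * (x ^ (ε / 2) * w) := by
    intro s hs
    have e : s = 1 / 2 + (s.im : ℂ) * I := by
      apply Complex.ext <;> simp [hs]
    rw [hGn, hs]
    have h1 : ‖SS (f i) h s‖ ≤ |B0| * ((1 + |s.im - T|) ^ (ε / 2 + a) * (x ^ (ε / 2) * w)) := by
      rw [e, SS_line]
      have h2 := XW0_shift H hW (half_pos hε).le i T (s.im - T)
      rw [show T + (s.im - T) = s.im by ring, ← hx, ← hw] at h2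
      simp only [add_im, mul_im, ofReal_re, I_im, mul_one, ofReal_im, I_re, mul_zero, add_zero] at h2 ⊢
      norm_num at h2 ⊢
      exact (hB0 i s.im).trans (mul_le_mul_of_nonneg_left h2 (abs_nonneg _))
    have e2 : ((1:ℝ) / 2 - 1 / 2) ^ 2 - (s.im - T) ^ 2 = -(s.im - T) ^ 2 := by ring
    rw [e2]
    have h5 := hM1 (s.im - T)
    calc ‖SS (f i) h s‖ * Real.exp (-(s.im - T) ^ 2)
        ≤ (|B0| * ((1 + |s.im - T|) ^ (ε / 2 + a) * (x ^ (ε / 2) * w))) *
            Real.exp (-(s.im - T) ^ 2) := mul_le_mul_of_nonneg_right h1 (Real.exp_pos _).le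
      _ = |B0| * ((1 + |s.im - T|) ^ (ε / 2 + a) * Real.exp (-(s.im - T) ^ 2)) * (x ^ (ε / 2) * w) := by
          ring
      _ ≤ |B0| * M1 * (x ^ (ε / 2) * w) := by
          apply mul_le_mul_of_nonneg_right _ (by positivity)
          exact mul_le_mul_of_nonneg_left h5 (abs_nonneg _)
      _ ≤ C3 * (x ^ (ε / 2) * w) := by
          apply mul_le_mul_of_nonneg_right _ (by positivity)
          have : 0 ≤ 2 * (|h| * (Cc * (1 + |h|) ^ Ac)) * M2 := by positivity
          rw [hC3]; linarith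
  -- interpolation
  have hAB : ∀ θ : ℝ, 0 ≤ θ → θ ≤ 4 * δ →
      (C3 * (x ^ (ε / 2) * w)) ^ (1 - θ) * (C3 * (x ^ (ε / 2 + Ac) * w)) ^ θ ≤ C3 * (x ^ ε * w) := by
    intro θ h0 h1
    have e1 : C3 * (x ^ (ε / 2 + Ac) * w) = C3 * (x ^ (ε / 2) * w) * x ^ Ac := by
      rw [Real.rpow_add hx0]; ring
    rw [e1, Real.mul_rpow (x := C3 * (x ^ (ε / 2) * w)) (by positivity) (by positivity), ← mul_assoc,
      ← Real.rpow_add (by positivity), sub_add_cancel, Real.rpow_one, ← Real.rpow_mul hx0.le]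
    have e2 : C3 * (x ^ (ε / 2) * w) * x ^ (Ac * θ) = C3 * (x ^ (ε / 2 + Ac * θ) * w) := by
      rw [Real.rpow_add hx0]; ring
    rw [e2]
    apply mul_le_mul_of_nonneg_left _ hC30.le
    apply mul_le_mul_of_nonneg_right _ hw0.le
    apply Real.rpow_le_rpow_of_exponent_le hx1
    nlinarith
  have hnear : ∀ s : ℂ, ‖s - (1 / 2 + (T : ℂ) * I)‖ ≤ δ → ‖G s‖ ≤ C3 * (x ^ ε * w) := by
    intro s hs
    have h1 : |s.re - 1 / 2| ≤ δ := by
      have := (abs_re_le_norm (s - (1 / 2 + (T : ℂ) * I))).trans hs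
      simpa using this
    have h1' := abs_le.1 h1
    rcases le_total (1 / 2) s.re with hr | hr
    · have h2 := three_right hG (u := 3 / 4) (by norm_num) (fun z h3 h4 => hbd z (by linarith) h4)
        hline (fun z h3 => hbd z (by rw [h3]; norm_num) (by rw [h3])) hr (by linarith)
      refine h2.trans (hAB _ ?_ ?_)
      · apply div_nonneg <;> linarith
      · rw [div_le_iff₀ (by norm_num)]; linarith
    · have h2 := three_left hG (l := 1 / 4) (by norm_num) (fun z h3 h4 => hbd z h3 (by linarith))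
        hline (fun z h3 => hbd z (by rw [h3]) (by rw [h3]; norm_num)) (by linarith) hr
      have e : (s.re - 1 / 4) / (1 / 2 - 1 / 4) = 1 - 4 * (1 / 2 - s.re) := by ring
      rw [e, mul_comm, sub_sub_cancel] at h2
      exact h2.trans (hAB _ (by linarith) (by linarith))
  -- Cauchy's estimate
  rw [← SS_deriv_line H]
  have h1 := norm_deriv_le_of_forall_mem_sphere_norm_le (f := SS (f i) h) (c := 1 / 2 + (T : ℂ) * I)
    (R := δ) (C := Real.exp 1 * (C3 * (x ^ ε * w))) hδ0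
    (by
      have : Differentiable ℂ (SS (f i) h) := fun s => (SS_hasDerivAt (H.diff i) h s).differentiableAt
      exact this.diffContOnCl)
    (by
      intro z hz
      have hz' : ‖z - (1 / 2 + (T : ℂ) * I)‖ ≤ δ := by
        rw [mem_sphere_iff_norm] at hz; exact hz.le
      have h2 := hnear z hz'
      rw [hGn] at h2
      have h3 : Real.exp (-1) ≤ Real.exp ((z.re - 1 / 2) ^ 2 - (z.im - T) ^ 2) := by
        apply Real.exp_le_exp.2
        have h4 : |z.im - T| ≤ δ := by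
          have := (abs_im_le_norm (z - (1 / 2 + (T : ℂ) * I))).trans hz'
          simpa using this
        have h5 := abs_le.1 h4
        nlinarith [sq_nonneg (z.re - 1 / 2)]
      have h4 : ‖SS (f i) h z‖ * Real.exp (-1) ≤ C3 * (x ^ ε * w) :=
        (mul_le_mul_of_nonneg_left h3 (norm_nonneg _)).trans h2
      have h5 : Real.exp 1 * Real.exp (-1) = 1 := by rw [← Real.exp_add]; simp
      calc ‖SS (f i) h z‖ = Real.exp 1 * (‖SS (f i) h z‖ * Real.exp (-1)) := by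
            rw [mul_comm (‖SS (f i) h z‖), ← mul_assoc, h5, one_mul]
        _ ≤ _ := by gcongr)
  refine h1.trans (le_of_eq ?_)
  ring

/-- the increments to the right of the line -/
theorem right_incr0 (H : TF0 f X) (hW : Wt W a) {h : ℝ} (Hi : Incr f X W h) {ε : ℝ} (hε : 0 < ε) :
    ∃ C : ℝ, 0 ≤ C ∧ ∀ (i : ι) (T : ℝ) (σ : ℝ), 1 / 2 ≤ σ → σ ≤ 2 →
      ‖f i ((σ : ℂ) + ((T + h : ℝ) : ℂ) * I) - f i ((σ : ℂ) + (T : ℂ) * I)‖ ≤ C * (X i T ^ ε * W i T) := by
  have ha := hW.a0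
  obtain ⟨Cc, Ac, hCc, hAc, hcr⟩ := H.crude
  obtain ⟨Br, hBr0, hBr⟩ := H.right ε hε
  obtain ⟨B0, hB0⟩ := Hi ε hε
  have hB0 := nonneg0 H hW hB0
  obtain ⟨M1, hM11, hM1⟩ := poly_gauss (ε + a)
  obtain ⟨M2, hM21, hM2⟩ := poly_gauss Ac
  obtain ⟨M3, hM31, hM3⟩ := poly_gauss ε
  obtain ⟨C3, hC3⟩ : ∃ C3, C3 = |B0| * M1 + Real.exp 3 * (Br * ((1 + |h|) ^ ε + 1)) * M3 + 1 := ⟨_, rfl⟩
  have hC30 : 0 < C3 := by
    rw [hC3]
    have : 0 ≤ |B0| * M1 := by positivity
    have : 0 ≤ Real.exp 3 * (Br * ((1 + |h|) ^ ε + 1)) * M3 := by positivity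
    linarith
  refine ⟨C3, hC30.le, fun i T σ hσ1 hσ2 => ?_⟩
  obtain ⟨x, hx⟩ : ∃ x, x = X i T := ⟨_, rfl⟩
  rw [← hx]
  have hx1 : 1 ≤ x := by rw [hx]; exact H.X1 i T
  have hx0 : 0 < x := by linarith
  obtain ⟨w, hw⟩ : ∃ w, w = W i T := ⟨_, rfl⟩
  rw [← hw]
  have hw1 : 1 ≤ w := by rw [hw]; exact hW.W1 i T
  have hw0 : 0 < w := by linarith
  have hXt : ∀ t : ℝ, X i t ≤ (1 + |t - T|) * x := by
    intro t
    have := H.Xsh i T (t - T)
    rwa [show T + (t - T) = t by ring, ← hx] at this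
  have hXth : ∀ t : ℝ, X i (t + h) ≤ (1 + |h|) * ((1 + |t - T|) * x) := by
    intro t
    have h1 := H.Xsh i t h
    exact h1.trans (mul_le_mul_of_nonneg_left (hXt t) (by positivity))
  obtain ⟨G, hGd⟩ : ∃ G : ℂ → ℂ, G = fun s => (f i (s + (h : ℂ) * I) - f i s) *
    cexp ((s - (1 / 2 + (T : ℂ) * I)) ^ 2) := ⟨_, rfl⟩
  have hG : Differentiable ℂ G := by
    rw [hGd]
    have h1 := H.diff i
    have h2 : Differentiable ℂ (fun s : ℂ => f i (s + (h : ℂ) * I)) := h1.comp (by fun_prop)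
    exact (h2.sub h1).mul (by fun_prop)
  have hGn : ∀ s, ‖G s‖ = ‖f i (s + (h : ℂ) * I) - f i s‖ *
      Real.exp ((s.re - 1 / 2) ^ 2 - (s.im - T) ^ 2) := by
    intro s
    rw [hGd]
    simp only
    rw [norm_mul, norm_gauss]
  have him : ∀ s : ℂ, (s + (h : ℂ) * I).im = s.im + h := fun s => by simp
  have hex : ∀ s : ℂ, 1 / 2 ≤ s.re → s.re ≤ 2 →
      Real.exp ((s.re - 1 / 2) ^ 2 - (s.im - T) ^ 2) ≤ Real.exp 3 * Real.exp (-(s.im - T) ^ 2) := by
    intro s h1 h2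
    rw [← Real.exp_add]
    apply Real.exp_le_exp.2
    nlinarith
  have hbd : ∀ s : ℂ, 1 / 2 ≤ s.re → s.re ≤ 2 → ‖G s‖ ≤
      (Cc * ((1 + |h|) ^ Ac + 1) * x ^ Ac) * (Real.exp 3 * M2) := by
    intro s h1 h2
    rw [hGn]
    have h3 : ‖f i (s + (h : ℂ) * I) - f i s‖ ≤
        Cc * ((1 + |h|) ^ Ac + 1) * x ^ Ac * (1 + |s.im - T|) ^ Ac := by
      refine (norm_sub_le _ _).trans ?_
      have c1 := hcr i (s + (h : ℂ) * I) (by simp; linarith)
      have c2 := hcr i s (by linarith)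
      rw [him] at c1
      have c3 : X i (s.im + h) ^ Ac ≤ (1 + |h|) ^ Ac * ((1 + |s.im - T|) ^ Ac * x ^ Ac) := by
        rw [← Real.mul_rpow (by positivity) hx0.le, ← Real.mul_rpow (by positivity) (by positivity)]
        exact Real.rpow_le_rpow (by linarith [H.X1 i (s.im + h)]) (hXth _) hAc
      have c4 : X i s.im ^ Ac ≤ (1 + |s.im - T|) ^ Ac * x ^ Ac := by
        rw [← Real.mul_rpow (by positivity) hx0.le]
        exact Real.rpow_le_rpow (by linarith [H.X1 i s.im]) (hXt _) hAc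
      calc _ ≤ Cc * ((1 + |h|) ^ Ac * ((1 + |s.im - T|) ^ Ac * x ^ Ac)) +
            Cc * ((1 + |s.im - T|) ^ Ac * x ^ Ac) := by
            apply add_le_add (c1.trans _) (c2.trans _)
            · exact mul_le_mul_of_nonneg_left c3 hCc
            · exact mul_le_mul_of_nonneg_left c4 hCc
        _ = _ := by ring
    calc _ ≤ (Cc * ((1 + |h|) ^ Ac + 1) * x ^ Ac * (1 + |s.im - T|) ^ Ac) *
          (Real.exp 3 * Real.exp (-(s.im - T) ^ 2)) :=
          mul_le_mul h3 (hex s h1 h2) (Real.exp_pos _).le (by positivity)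
      _ = (Cc * ((1 + |h|) ^ Ac + 1) * x ^ Ac) *
          (Real.exp 3 * ((1 + |s.im - T|) ^ Ac * Real.exp (-(s.im - T) ^ 2))) := by ring
      _ ≤ _ := by
          apply mul_le_mul_of_nonneg_left _ (by positivity)
          exact mul_le_mul_of_nonneg_left (hM2 _) (Real.exp_pos _).le
  have hline : ∀ s : ℂ, s.re = 1 / 2 → ‖G s‖ ≤ C3 * (x ^ ε * w) := by
    intro s hs
    have e : s = 1 / 2 + (s.im : ℂ) * I := by
      apply Complex.ext <;> simp [hs]
    have e1 : f i (s + (h : ℂ) * I) - f i s = vl f i (s.im + h) - vl f i s.im := by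
      unfold vl
      rw [← e]
      congr 2
      conv_lhs => rw [e]
      push_cast
      ring
    rw [hGn, hs, e1]
    have h2 := XW0_shift H hW hε.le i T (s.im - T)
    rw [show T + (s.im - T) = s.im by ring, ← hx, ← hw] at h2
    have e2 : ((1:ℝ) / 2 - 1 / 2) ^ 2 - (s.im - T) ^ 2 = -(s.im - T) ^ 2 := by ring
    rw [e2]
    calc _ ≤ (|B0| * ((1 + |s.im - T|) ^ (ε + a) * (x ^ ε * w))) * Real.exp (-(s.im - T) ^ 2) := by
          apply mul_le_mul_of_nonneg_right _ (Real.exp_pos _).le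
          exact (hB0 i s.im).trans (mul_le_mul_of_nonneg_left h2 (abs_nonneg _))
      _ = |B0| * ((1 + |s.im - T|) ^ (ε + a) * Real.exp (-(s.im - T) ^ 2)) * (x ^ ε * w) := by ring
      _ ≤ |B0| * M1 * (x ^ ε * w) := by
          apply mul_le_mul_of_nonneg_right _ (by positivity)
          exact mul_le_mul_of_nonneg_left (hM1 _) (abs_nonneg _)
      _ ≤ _ := by
          apply mul_le_mul_of_nonneg_right _ (by positivity)
          have : 0 ≤ Real.exp 3 * (Br * ((1 + |h|) ^ ε + 1)) * M3 := by positivity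
          rw [hC3]; linarith
  have hright : ∀ s : ℂ, s.re = 2 → ‖G s‖ ≤ C3 * (x ^ ε * w) := by
    intro s hs
    rw [hGn]
    have h3 : ‖f i (s + (h : ℂ) * I) - f i s‖ ≤ Br * ((1 + |h|) ^ ε + 1) * x ^ ε * (1 + |s.im - T|) ^ ε := by
      refine (norm_sub_le _ _).trans ?_
      have c1 := hBr i (s + (h : ℂ) * I) (by simp; linarith)
      have c2 := hBr i s (by linarith)
      rw [him] at c1
      have c3 : X i (s.im + h) ^ ε ≤ (1 + |h|) ^ ε * ((1 + |s.im - T|) ^ ε * x ^ ε) := by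
        rw [← Real.mul_rpow (by positivity) hx0.le, ← Real.mul_rpow (by positivity) (by positivity)]
        exact Real.rpow_le_rpow (by linarith [H.X1 i (s.im + h)]) (hXth _) hε.le
      have c4 : X i s.im ^ ε ≤ (1 + |s.im - T|) ^ ε * x ^ ε := by
        rw [← Real.mul_rpow (by positivity) hx0.le]
        exact Real.rpow_le_rpow (by linarith [H.X1 i s.im]) (hXt _) hε.le
      calc _ ≤ Br * ((1 + |h|) ^ ε * ((1 + |s.im - T|) ^ ε * x ^ ε)) +
            Br * ((1 + |s.im - T|) ^ ε * x ^ ε) := by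
            apply add_le_add (c1.trans _) (c2.trans _)
            · exact mul_le_mul_of_nonneg_left c3 hBr0
            · exact mul_le_mul_of_nonneg_left c4 hBr0
        _ = _ := by ring
    calc _ ≤ (Br * ((1 + |h|) ^ ε + 1) * x ^ ε * (1 + |s.im - T|) ^ ε) *
          (Real.exp 3 * Real.exp (-(s.im - T) ^ 2)) :=
          mul_le_mul h3 (hex s (by linarith) (by linarith)) (Real.exp_pos _).le (by positivity)
      _ = (Real.exp 3 * (Br * ((1 + |h|) ^ ε + 1))) *
          ((1 + |s.im - T|) ^ ε * Real.exp (-(s.im - T) ^ 2)) * x ^ ε := by ring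
      _ ≤ (Real.exp 3 * (Br * ((1 + |h|) ^ ε + 1))) * M3 * (x ^ ε * w) := by
          apply mul_le_mul (mul_le_mul_of_nonneg_left (hM3 _) (by positivity)) _ (by positivity)
            (by positivity)
          have : 0 ≤ x ^ ε := by positivity
          nlinarith
      _ ≤ _ := by
          apply mul_le_mul_of_nonneg_right _ (by positivity)
          have : 0 ≤ |B0| * M1 := by positivity
          rw [hC3]; linarith
  have hres := three_right hG (u := 2) (by norm_num) hbd hline hright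
    (s := (σ : ℂ) + (T : ℂ) * I) (by simpa using hσ1) (by simpa using hσ2)
  rw [← Real.rpow_add (by positivity), sub_add_cancel, Real.rpow_one, hGn] at hres
  have e2 : (σ : ℂ) + (T : ℂ) * I + (h : ℂ) * I = σ + ((T + h : ℝ) : ℂ) * I := by push_cast; ring
  rw [e2] at hres
  have h3 : 1 ≤ Real.exp ((((σ : ℂ) + (T : ℂ) * I).re - 1 / 2) ^ 2 -
      (((σ : ℂ) + (T : ℂ) * I).im - T) ^ 2) := by
    apply Real.one_le_exp
    simp
    positivity
  exact (le_mul_of_one_le_right (norm_nonneg _) h3).trans hres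

theorem incr_mean0 (H : TF0 f X) (hW : Wt W a) {h : ℝ} (Hi : Incr f X W h) : Mean f X W h := by
  intro ε hε
  obtain ⟨C, hC0, hC⟩ := right_incr0 H hW Hi hε
  obtain ⟨Br, hBr0, hBr⟩ := H.right ε hε
  refine ⟨3 / 2 * C + Br * (1 + |h|) ^ ε * |h|, fun i T => ?_⟩
  have hx1 := H.X1 i T
  have hw1 := hW.W1 i T
  have hg := H.diff i
  have hrect := Complex.integral_boundary_rect_eq_zero_of_differentiableOn (f i)
    (1 / 2 + (T : ℂ) * I) (2 + ((T + h : ℝ) : ℂ) * I) hg.differentiableOn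
  have r1 : (1 / 2 + (T : ℂ) * I).re = 1 / 2 := by simp
  have r2 : (1 / 2 + (T : ℂ) * I).im = T := by simp
  have r3 : (2 + ((T + h : ℝ) : ℂ) * I).re = 2 := by simp
  have r4 : (2 + ((T + h : ℝ) : ℂ) * I).im = T + h := by simp
  rw [r1, r2, r3, r4] at hrect
  have e1 : (∫ y in T..(T + h), f i (((1 / 2 : ℝ) : ℂ) + (y : ℂ) * I)) = ∫ u in T..(T + h), vl f i u := by
    unfold vl
    simp
  rw [e1] at hrect
  have hint : ∀ y : ℝ, IntervalIntegrable (fun x : ℝ => f i ((x : ℂ) + (y : ℂ) * I))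
      MeasureTheory.volume (1 / 2) 2 := by
    intro y
    apply Continuous.intervalIntegrable
    exact hg.continuous.comp (by fun_prop)
  have e2 : (∫ x in (1 / 2 : ℝ)..2, f i ((x : ℂ) + (T : ℂ) * I)) -
      (∫ x in (1 / 2 : ℝ)..2, f i ((x : ℂ) + ((T + h : ℝ) : ℂ) * I)) =
      ∫ x in (1 / 2 : ℝ)..2, (f i ((x : ℂ) + (T : ℂ) * I) - f i ((x : ℂ) + ((T + h : ℝ) : ℂ) * I)) := by
    rw [intervalIntegral.integral_sub (hint T) (hint (T + h))]
  rw [e2] at hrect
  have n1 : ‖∫ x in (1 / 2 : ℝ)..2, (f i ((x : ℂ) + (T : ℂ) * I) -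
        f i ((x : ℂ) + ((T + h : ℝ) : ℂ) * I))‖ ≤ (C * (X i T ^ ε * W i T)) * |2 - 1 / 2| := by
    apply intervalIntegral.norm_integral_le_of_norm_le_const
    intro x hx
    rw [Set.uIoc_of_le (by norm_num)] at hx
    rw [norm_sub_rev]
    exact hC i T x hx.1.le hx.2
  have n2 : ‖∫ y in T..(T + h), f i (((2 : ℝ) : ℂ) + (y : ℂ) * I)‖ ≤
      (Br * ((1 + |h|) ^ ε * X i T ^ ε)) * |T + h - T| := by
    apply intervalIntegral.norm_integral_le_of_norm_le_const
    intro y hy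
    have h2 := hBr i (((2 : ℝ) : ℂ) + (y : ℂ) * I) (by simp)
    have e : (((2 : ℝ) : ℂ) + (y : ℂ) * I).im = y := by simp
    rw [e] at h2
    refine h2.trans (mul_le_mul_of_nonneg_left ?_ hBr0)
    rw [← Real.mul_rpow (by positivity) (by linarith)]
    apply Real.rpow_le_rpow (by linarith [H.X1 i y]) _ hε.le
    have h3 := H.Xsh i T (y - T)
    rw [show T + (y - T) = y by ring] at h3
    have h4 : |y - T| ≤ |h| := by
      rw [Set.mem_uIoc] at hy
      rcases hy with ⟨h4, h5⟩ | ⟨h4, h5⟩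
      · rw [abs_of_pos (by linarith)]
        exact le_trans (by linarith) (le_abs_self h)
      · rw [abs_of_nonpos (by linarith)]
        exact le_trans (by linarith) (neg_le_abs h)
    exact h3.trans (mul_le_mul_of_nonneg_right (by linarith) (by linarith))
  have n3 : |(2 : ℝ) - 1 / 2| = 3 / 2 := by norm_num [abs_of_pos]
  rw [n3] at n1
  rw [show T + h - T = h by ring] at n2
  have e3 : I • (∫ u in T..(T + h), vl f i u) = (∫ x in (1 / 2 : ℝ)..2, (f i ((x : ℂ) + (T : ℂ) * I) -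
        f i ((x : ℂ) + ((T + h : ℝ) : ℂ) * I))) +
        I • (∫ y in T..(T + h), f i (((2 : ℝ) : ℂ) + (y : ℂ) * I)) := by
    have := sub_eq_zero.1 hrect
    exact this.symm
  have e4 : ‖∫ u in T..(T + h), vl f i u‖ = ‖I • (∫ u in T..(T + h), vl f i u)‖ := by
    rw [norm_smul, norm_I, one_mul]
  rw [e4, e3]
  refine (norm_add_le _ _).trans ?_
  rw [norm_smul, norm_I, one_mul]
  have hXe : 0 ≤ X i T ^ ε := Real.rpow_nonneg (by linarith) _
  have h5 : X i T ^ ε ≤ X i T ^ ε * W i T := le_mul_of_one_le_right hXe hw1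
  calc _ ≤ (C * (X i T ^ ε * W i T)) * (3 / 2) + (Br * ((1 + |h|) ^ ε * X i T ^ ε)) * |h| :=
        add_le_add n1 n2
    _ ≤ (C * (X i T ^ ε * W i T)) * (3 / 2) + (Br * ((1 + |h|) ^ ε * (X i T ^ ε * W i T))) * |h| := by
        gcongr
    _ = _ := by ring

theorem mean_incr (H : TF f X) (hW : Wt W a) {h : ℝ} (Hm : Mean f X W h) : Incr f X W h :=
  mean_incr0 H.to0 hW Hm

theorem incr_mean (H : TF f X) (hW : Wt W a) {h : ℝ} (Hi : Incr f X W h) : Mean f X W h :=
  incr_mean0 H.to0 hW Hi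

end Pool.Agent.U645.TL
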