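import Mathlib
import Pool.Agent.U645.TL.P1
import Pool.Agent.U645.TL.Fam
import Pool.Agent.H983R4.GL.F2
import Pool.Agent.H855R2.SF.Data

/-!
# Families of L-functions of degree `m`
-/

set_option autoImplicit false

open Complex Filter Topology Set

namespace Pool.Agent.U645.TL

open Pool.Agent.W188.GLR H855R2.SF

/-- the data of a family of L-functions of degree `m` -/
structure GD {ι : Type*} (m : ℕ) (N : ι → ℕ) (mu : ι → Fin m → ℂ) (f : ι → ℂ → ℂ)
    (X : ι → ℝ → ℝ) : Prop where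
  hm : 1 ≤ m
  N_pos : ∀ i, 0 < N i
  mu_re : ∀ i j, (mu i j).re < 1 / 2
  entire : ∀ i, Differentiable ℂ (f i)
  order : ∀ i, ∃ A : ℝ, ∀ s : ℂ, -1 / 4 ≤ s.re → s.re ≤ 5 / 4 →
    ‖f i s‖ ≤ Real.exp (A * (1 + |s.im|) ^ A)
  fe : ∀ i, ∃ root : ℂ, ‖root‖ = 1 ∧ ∀ s : ℂ,
    f i s * ∏ j, (Complex.Gammaℝ (1 - s - (starRingEnd ℂ) (mu i j)))⁻¹ =
      root * (N i : ℂ) ^ (1 / 2 - s) * (starRingEnd ℂ) (f i (1 - (starRingEnd ℂ) s)) *
        ∏ j, (Complex.Gammaℝ (s - mu i j))⁻¹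
  molteni : ∀ ε : ℝ, 0 < ε → ∃ B : ℝ, ∀ (i : ι) (s : ℂ),
    1 + ε ≤ s.re → ‖f i s‖ ≤ B * (N i * ∏ j, (1 + ‖mu i j‖)) ^ ε
  X1 : ∀ i T, 1 ≤ X i T
  Xle : ∀ i T, X i T ≤ (1 + |T|) * (N i * ∏ j, (1 + ‖mu i j‖))
  Xge : ∀ i T, (1 + |T|) * (N i * ∏ j, (1 + ‖mu i j‖)) ≤ 2 * X i T
  Xsh : ∀ i t u, X i (t + u) ≤ (1 + |u|) * X i t

variable {ι : Type*} {m : ℕ} {N : ι → ℕ} {mu : ι → Fin m → ℂ} {f : ι → ℂ → ℂ} {X : ι → ℝ → ℝ}

lemma GD.C1 (H : GD m N mu f X) (i : ι) : 1 ≤ (N i : ℝ) * ∏ j, (1 + ‖mu i j‖) := by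
  have := cond_one_le (H.N_pos i) (mu i) 0
  simpa using this

theorem GD.afam (H : GD m N mu f X) :
    AFam (m : ℝ) f (fun i t => ((1 + |t|) * (N i * ∏ j, (1 + ‖mu i j‖))) ^ (m : ℝ)) where
  m0 := by positivity
  Q1 := by
    intro i t
    refine Real.one_le_rpow ?_ (by positivity)
    have h1 := H.C1 i
    nlinarith [abs_nonneg t]
  Qs := by
    intro i t u
    have h1 := H.C1 i
    have h2 : 1 + |t + u| ≤ (1 + |u|) * (1 + |t|) := by
      have := abs_add_le t u
      nlinarith [abs_nonneg t, abs_nonneg u, mul_nonneg (abs_nonneg t) (abs_nonneg u)]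
    rw [← Real.mul_rpow (by positivity) (by positivity)]
    refine Real.rpow_le_rpow (by positivity) ?_ (by positivity)
    calc (1 + |t + u|) * (N i * ∏ j, (1 + ‖mu i j‖)) ≤
          ((1 + |u|) * (1 + |t|)) * (N i * ∏ j, (1 + ‖mu i j‖)) :=
          mul_le_mul_of_nonneg_right h2 (by linarith)
      _ = _ := by ring
  diff := H.entire
  order := H.order
  right := by
    intro δ hδ
    obtain ⟨B, hB⟩ := H.molteni δ hδ
    refine ⟨|B|, fun i s hs => ?_⟩
    have h1 := H.C1 i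
    refine (hB i s hs).trans ?_
    have h2 : (N i : ℝ) * ∏ j, (1 + ‖mu i j‖) ≤ (1 + |s.im|) * (N i * ∏ j, (1 + ‖mu i j‖)) := by
      nlinarith [abs_nonneg s.im]
    have h3 : (N i : ℝ) * ∏ j, (1 + ‖mu i j‖) ≤
        ((1 + |s.im|) * (N i * ∏ j, (1 + ‖mu i j‖))) ^ (m : ℝ) := by
      refine h2.trans ?_
      conv_lhs => rw [← Real.rpow_one ((1 + |s.im|) * (N i * ∏ j, (1 + ‖mu i j‖)))]
      exact Real.rpow_le_rpow_of_exponent_le (by linarith) (by exact_mod_cast H.hm)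
    calc B * (N i * ∏ j, (1 + ‖mu i j‖)) ^ δ ≤ |B| * (N i * ∏ j, (1 + ‖mu i j‖)) ^ δ :=
          mul_le_mul_of_nonneg_right (le_abs_self B) (Real.rpow_nonneg (by linarith) _)
      _ ≤ _ := mul_le_mul_of_nonneg_left (Real.rpow_le_rpow (by linarith) h3 hδ.le) (abs_nonneg B)
  refl := by
    refine ⟨16 ^ m, by positivity, fun i x t hx0 hx1 => ?_⟩
    obtain ⟨root, hroot, hfe⟩ := H.fe i
    have h1 := H.C1 i
    refine (refl_of_fe (H.N_pos i) (mu i) (H.mu_re i) hroot hfe (t := t) hx0 hx1).trans ?_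
    refine mul_le_mul_of_nonneg_right ?_ (norm_nonneg _)
    refine mul_le_mul_of_nonneg_left ?_ (by positivity)
    refine Real.rpow_le_rpow (by positivity) ?_ hx0
    have h2 := cond_shift (N i) (mu i) 0 t
    have e1 : (N i) * ∏ j, (1 + ‖(mu i) j - ((0 : ℝ) : ℂ) * Complex.I‖) =
        N i * ∏ j, (1 + ‖mu i j‖) := by simp
    rw [e1, zero_add] at h2
    refine h2.trans ?_
    rw [Real.mul_rpow (by positivity) (by linarith)]
    refine mul_le_mul_of_nonneg_left ?_ (by positivity)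
    conv_lhs => rw [← Real.rpow_one (N i * ∏ j, (1 + ‖mu i j‖) : ℝ)]
    exact Real.rpow_le_rpow_of_exponent_le h1 (by exact_mod_cast H.hm)

/-- a point of the progression far from all the parameters -/
lemma far_point (mu : Fin m → ℂ) {D h₀ : ℝ} (hD : 1 ≤ D) (hh : h₀ ≠ 0) (T : ℝ) :
    ∃ k : ℕ, (k : ℝ) ≤ 2 * m * D * (1 + 1 / |h₀|) ∧
      ∀ j, D ≤ ‖1 / 2 + ((T + k * h₀ : ℝ) : ℂ) * I - mu j‖ := by
  have hh0 : 0 < |h₀| := abs_pos.2 hh
  set P : ℕ := ⌈2 * D / |h₀|⌉₊ with hP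
  have hP1 : 2 * D ≤ P * |h₀| := by
    have := Nat.le_ceil (2 * D / |h₀|)
    rwa [div_le_iff₀ hh0] at this
  have hP2 : (P : ℝ) ≤ 2 * D / |h₀| + 1 := (Nat.ceil_lt_add_one (by positivity)).le
  by_contra hcon
  push Not at hcon
  have hbad : ∀ l : Fin (m + 1), ∃ j : Fin m, |T + ((l : ℕ) * P : ℕ) * h₀ - (mu j).im| < D := by
    intro l
    have hl : ((l : ℕ) : ℝ) ≤ m := by exact_mod_cast Nat.lt_succ_iff.1 l.2
    obtain ⟨j, hj⟩ := hcon ((l : ℕ) * P) (by
      push_cast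
      have h1 : (0 : ℝ) ≤ m := Nat.cast_nonneg m
      have h2 : (P : ℝ) ≤ 2 * D * (1 + 1 / |h₀|) := by
        refine hP2.trans ?_
        have e : 2 * D * (1 + 1 / |h₀|) = 2 * D / |h₀| + 2 * D := by ring
        rw [e]
        linarith
      calc ((l : ℕ) : ℝ) * P ≤ m * (2 * D * (1 + 1 / |h₀|)) := by gcongr
        _ = _ := by ring)
    refine ⟨j, lt_of_le_of_lt ?_ hj⟩
    have := abs_im_le_norm (1 / 2 + ((T + ((l : ℕ) * P : ℕ) * h₀ : ℝ) : ℂ) * I - mu j)
    refine le_trans (le_of_eq ?_) this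
    simp
  choose J hJ using hbad
  obtain ⟨l, l', hne, heq⟩ := Fintype.exists_ne_map_eq_of_card_lt J (by simp)
  have a1 := hJ l
  have a2 := hJ l'
  rw [heq] at a1
  have h1 : |(T + ((l : ℕ) * P : ℕ) * h₀ - (mu (J l')).im) -
      (T + ((l' : ℕ) * P : ℕ) * h₀ - (mu (J l')).im)| < 2 * D := by
    refine (abs_sub _ _).trans_lt ?_
    linarith
  have e1 : (T + ((l : ℕ) * P : ℕ) * h₀ - (mu (J l')).im) -
      (T + ((l' : ℕ) * P : ℕ) * h₀ - (mu (J l')).im) =
      (((l : ℕ) : ℝ) - ((l' : ℕ) : ℝ)) * (P * h₀) := by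
    push_cast; ring
  rw [e1, abs_mul, abs_mul, abs_of_nonneg (Nat.cast_nonneg P : (0:ℝ) ≤ P)] at h1
  have h2 : (1 : ℝ) ≤ |((l : ℕ) : ℝ) - ((l' : ℕ) : ℝ)| := by
    have h3 : ((l : ℕ) : ℤ) - ((l' : ℕ) : ℤ) ≠ 0 := by
      intro h
      apply hne
      apply Fin.ext
      omega
    have h4 := Int.one_le_abs h3
    have h5 : ((1 : ℤ) : ℝ) ≤ ((|((l : ℕ) : ℤ) - ((l' : ℕ) : ℤ)| : ℤ) : ℝ) := by exact_mod_cast h4
    rw [Int.cast_abs] at h5
    push_cast at h5
    exact h5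
  have h3 : 0 ≤ (P : ℝ) * |h₀| := by positivity
  nlinarith

theorem GD.tf (H : GD m N mu f X) : TF f X where
  X1 := H.X1
  Xsh := H.Xsh
  diff := H.entire
  crude := by
    obtain ⟨C, hC, h⟩ := Pool.Agent.H983R4.GL.crude H.afam
    refine ⟨C * 2 ^ (m : ℝ), m, by positivity, by positivity, fun i s hs => ?_⟩
    have h1 := h i s hs
    have h2 : ((1 + |s.im|) * (N i * ∏ j, (1 + ‖mu i j‖))) ^ (m : ℝ) ≤ (2 * X i s.im) ^ (m : ℝ) :=
      Real.rpow_le_rpow (by positivity) (H.Xge i s.im) (by positivity)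
    rw [Real.mul_rpow (x := 2) (y := X i s.im) (by norm_num) (by linarith [H.X1 i s.im])] at h2
    calc _ ≤ C * ((1 + |s.im|) * (N i * ∏ j, (1 + ‖mu i j‖))) ^ (m : ℝ) := h1
      _ ≤ C * (2 ^ (m : ℝ) * X i s.im ^ (m : ℝ)) := by gcongr
      _ = _ := by ring
  right := by
    intro ε hε
    obtain ⟨B, hB⟩ := H.molteni (min ε 1) (by positivity)
    refine ⟨|B| * 2 ^ (min ε 1), by positivity, fun i s hs => ?_⟩
    have h1 := hB i s (by linarith [min_le_right ε 1])
    have hX := H.X1 i s.im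
    have hC := H.C1 i
    have h2 : (N i : ℝ) * ∏ j, (1 + ‖mu i j‖) ≤ 2 * X i s.im := by
      refine le_trans ?_ (H.Xge i s.im)
      nlinarith [abs_nonneg s.im]
    calc ‖f i s‖ ≤ B * (N i * ∏ j, (1 + ‖mu i j‖)) ^ (min ε 1) := h1
      _ ≤ |B| * (2 * X i s.im) ^ (min ε 1) := by
          apply mul_le_mul (le_abs_self B) (Real.rpow_le_rpow (by linarith) h2 (by positivity))
            (Real.rpow_nonneg (by linarith) _) (abs_nonneg B)
      _ = |B| * 2 ^ (min ε 1) * X i s.im ^ (min ε 1) := by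
          rw [Real.mul_rpow (by norm_num) (by linarith)]; ring
      _ ≤ _ := by
          apply mul_le_mul_of_nonneg_left _ (by positivity)
          exact Real.rpow_le_rpow_of_exponent_le hX (min_le_left _ _)
  good := by
    have hC1 := C1_nonneg
    have hm0 : (0 : ℝ) ≤ m := Nat.cast_nonneg m
    have hm1 : (1 : ℝ) ≤ m := by exact_mod_cast H.hm
    refine ⟨8 * m + 2, (m + 1) + m * (Pool.Agent.U645.TL.C1 + 2),
      max 4 (Real.exp (2 * (Pool.Agent.U645.TL.C1 + 1))), by positivity, by positivity,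
      le_max_left _ _, ?_⟩
    intro D hD h₀ hh i T
    have hD4 : 4 ≤ D := (le_max_left _ _).trans hD
    have hDe : Real.exp (2 * (Pool.Agent.U645.TL.C1 + 1)) ≤ D := (le_max_right _ _).trans hD
    have hlog : 2 * (Pool.Agent.U645.TL.C1 + 1) ≤ Real.log D := by
      rwa [Real.le_log_iff_exp_le (by linarith)]
    obtain ⟨k, hk, hfar⟩ := far_point (mu i) (D := D) (by linarith) hh T
    obtain ⟨root, hroot, hfe⟩ := H.fe i
    set t : ℝ := T + k * h₀ with ht
    have hX := H.X1 i t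
    refine ⟨k, Th (N i) (mu i) t, ?_, ?_, ?_, ?_⟩
    · refine hk.trans ?_
      have : 0 ≤ D * (1 + 1 / |h₀|) := by positivity
      calc 2 * (m : ℝ) * D * (1 + 1 / |h₀|) = 2 * m * (D * (1 + 1 / |h₀|)) := by ring
        _ ≤ (8 * m + 2) * (D * (1 + 1 / |h₀|)) := by gcongr; linarith
        _ = _ := by ring
    · have h1 := Th_lower (H.N_pos i) (H.mu_re i) hD4 hfar
      refine le_trans ?_ h1
      nlinarith
    · have h1 := Th_upper (H.N_pos i) (H.mu_re i) hD4 hfar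
      refine h1.trans ?_
      have hCi := H.C1 i
      have hge := H.Xge i t
      have hle : Real.log (N i * ∏ j, (1 + ‖mu i j‖)) ≤ 1 + Real.log (X i t) := by
        have h2 : (N i : ℝ) * ∏ j, (1 + ‖mu i j‖) ≤ 2 * X i t := by
          refine le_trans ?_ hge
          nlinarith [abs_nonneg t]
        have h3 := Real.log_le_log (by linarith) h2
        rw [Real.log_mul (x := 2) (y := X i t) (by norm_num) (by linarith)] at h3
        have := Real.log_two_lt_d9
        linarith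
      have hle2 : Real.log (1 + |t|) ≤ 1 + Real.log (X i t) := by
        have h2 : 1 + |t| ≤ 2 * X i t := by
          refine le_trans ?_ hge
          nlinarith [abs_nonneg t]
        have h3 := Real.log_le_log (by positivity) h2
        rw [Real.log_mul (x := 2) (y := X i t) (by norm_num) (by linarith)] at h3
        have := Real.log_two_lt_d9
        linarith
      have hlX := Real.log_nonneg hX
      have h4 : (m : ℝ) * (Real.log (1 + |t|) + (Pool.Agent.U645.TL.C1 + 2)) ≤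
          m * ((1 + Real.log (X i t)) + (Pool.Agent.U645.TL.C1 + 2) * (1 + Real.log (X i t))) := by
        apply mul_le_mul_of_nonneg_left _ hm0
        nlinarith
      calc _ ≤ (1 + Real.log (X i t)) + m * ((1 + Real.log (X i t)) +
            (Pool.Agent.U645.TL.C1 + 2) * (1 + Real.log (X i t))) := add_le_add hle h4
        _ = _ := by ring
    · intro u
      rcases le_or_gt |u| (D / 2) with hu | hu
      · have h1 := one_len (H.N_pos i) (H.mu_re i) hroot hfe hD4 hfar hu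
        refine h1.trans ?_
        apply add_le_add le_rfl
        apply mul_le_mul_of_nonneg_right _ (norm_nonneg _)
        apply div_le_div_of_nonneg_right _ (by linarith)
        nlinarith [sq_nonneg u]
      · have h1 : Pool.Agent.R747.TL.dz (u * Th (N i) (mu i) t / (2 * Real.pi)) ≤ 1 / 2 := abs_sub_round _
        have h2 : 2 ≤ (8 * m + 2) * (1 + u ^ 2) / D := by
          rw [le_div_iff₀ (by linarith)]
          have h3 : (D / 2) ^ 2 ≤ u ^ 2 := by
            rw [← sq_abs u]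
            exact pow_le_pow_left₀ (by linarith) hu.le 2
          have h4 : D ≤ 1 + u ^ 2 := by nlinarith
          have h5 : 0 ≤ 8 * (m : ℝ) * (1 + u ^ 2) := by positivity
          nlinarith
        have h3 := norm_nonneg (vl f i t)
        calc 4 * Pool.Agent.R747.TL.dz (u * Th (N i) (mu i) t / (2 * Real.pi)) * ‖vl f i t‖
            ≤ 2 * ‖vl f i t‖ := by
              apply mul_le_mul_of_nonneg_right _ h3
              linarith
          _ ≤ (8 * m + 2) * (1 + u ^ 2) / D * ‖vl f i t‖ := mul_le_mul_of_nonneg_right h2 h3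
          _ ≤ _ := by
            have := norm_nonneg (vl f i (t + u) - vl f i t)
            linarith

end Pool.Agent.U645.TL
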