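import Mathlib
import Pool.Agent.U645.TL.L1
import Pool.Agent.U645.TL.M1
import Pool.Agent.U645.TL.P2

/-!
# The conductor aspect: one length
-/

set_option autoImplicit false

open Complex Filter Topology Set

namespace Pool.Agent.U645.TL

open Pool.Agent.W188.GLR

lemma move' (F : ℝ → ℂ) (T h₀ M : ℝ) (k : ℕ)
    (h : ∀ j : ℕ, j < k → ‖F (T + j * h₀ + h₀) - F (T + j * h₀)‖ ≤ M) :
    ‖F T‖ ≤ ‖F (T + k * h₀)‖ + k * M := by
  induction k with
  | zero => simp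
  | succ k ih =>
    have h1 := ih fun j hj => h j (by omega)
    have h2 := h k (by omega)
    have e : T + ((k + 1 : ℕ) : ℝ) * h₀ = T + k * h₀ + h₀ := by push_cast; ring
    rw [e]
    have h3 : ‖F (T + k * h₀)‖ ≤ ‖F (T + k * h₀ + h₀)‖ + ‖F (T + k * h₀ + h₀) - F (T + k * h₀)‖ := by
      have := norm_sub_le (F (T + k * h₀ + h₀)) (F (T + k * h₀ + h₀) - F (T + k * h₀))
      rw [sub_sub_cancel] at this
      exact this
    push_cast
    linarith

variable {ι : Type*} {f : ι → ℂ → ℂ}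

/-- change of the conductor -/
theorem TF0.mono {X' X : ι → ℝ → ℝ} (H : TF0 f X') {B b : ℝ} (hB : 1 ≤ B) (hb : 0 < b)
    (X1 : ∀ i T, 1 ≤ X i T) (Xsh : ∀ i t u, X i (t + u) ≤ (1 + |u|) * X i t)
    (hle : ∀ i T, X' i T ≤ B * X i T ^ b) : TF0 f X where
  X1 := X1
  Xsh := Xsh
  diff := H.diff
  crude := by
    obtain ⟨C, A, hC, hA, h⟩ := H.crude
    refine ⟨C * B ^ A, b * A, by positivity, by positivity, fun i s hs => ?_⟩
    have hX := X1 i s.im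
    have h1 : X' i s.im ^ A ≤ B ^ A * X i s.im ^ (b * A) := by
      rw [Real.rpow_mul (by linarith), ← Real.mul_rpow (by linarith) (by positivity)]
      exact Real.rpow_le_rpow (by linarith [H.X1 i s.im]) (hle i s.im) hA
    calc _ ≤ C * X' i s.im ^ A := h i s hs
      _ ≤ C * (B ^ A * X i s.im ^ (b * A)) := mul_le_mul_of_nonneg_left h1 hC
      _ = _ := by ring
  right := by
    intro ε hε
    obtain ⟨C, hC, h⟩ := H.right (ε / b) (by positivity)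
    refine ⟨C * B ^ (ε / b), by positivity, fun i s hs => ?_⟩
    have hX := X1 i s.im
    have h1 : X' i s.im ^ (ε / b) ≤ B ^ (ε / b) * X i s.im ^ ε := by
      have e : X i s.im ^ ε = (X i s.im ^ b) ^ (ε / b) := by
        rw [← Real.rpow_mul (by linarith)]; congr 1; field_simp
      rw [e, ← Real.mul_rpow (by linarith) (by positivity)]
      exact Real.rpow_le_rpow (by linarith [H.X1 i s.im]) (hle i s.im) (by positivity)
    calc _ ≤ C * X' i s.im ^ (ε / b) := h i s hs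
      _ ≤ C * (B ^ (ε / b) * X i s.im ^ ε) := mul_le_mul_of_nonneg_left h1 hC
      _ = _ := by ring

/-- polynomial dependence on `T` -/
def PB (Q : ι → ℝ) (κ : ℝ) (F : ι → ℝ → ℝ) : Prop := ∃ a : ℝ, ∀ ε : ℝ, 0 < ε → ∃ B : ℝ,
  ∀ (i : ι) (T : ℝ), F i T ≤ B * (1 + |T|) ^ a * Q i ^ (κ + ε)

lemma PB_to {Q : ι → ℝ} (hQ : ∀ i, 1 ≤ Q i) {κ : ℝ} {F : ι → ℝ → ℝ} (h : PB Q κ F) :
    ∃ a : ℝ, 0 ≤ a ∧ ∀ ε : ℝ, 0 < ε → ∃ B : ℝ, ∀ (i : ι) (T : ℝ),
      F i T ≤ B * ((Q i * (1 + |T|)) ^ ε * (Q i ^ κ * (1 + |T|) ^ a)) := by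
  obtain ⟨a, ha⟩ := h
  refine ⟨max a 0, le_max_right _ _, fun ε hε => ?_⟩
  obtain ⟨B, hB⟩ := ha ε hε
  refine ⟨|B|, fun i T => (hB i T).trans ?_⟩
  have hq := hQ i
  have hT : 1 ≤ 1 + |T| := by linarith [abs_nonneg T]
  have h1 : (1 + |T|) ^ a ≤ (1 + |T|) ^ ε * (1 + |T|) ^ (max a 0) := by
    rw [← Real.rpow_add (by linarith)]
    apply Real.rpow_le_rpow_of_exponent_le hT
    linarith [le_max_left a 0]
  rw [Real.mul_rpow (by linarith) (by linarith), Real.rpow_add (by linarith)]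
  have hQ1 : 0 ≤ Q i ^ κ * Q i ^ ε := by
    have := Real.rpow_nonneg (by linarith : 0 ≤ Q i) κ
    have := Real.rpow_nonneg (by linarith : 0 ≤ Q i) ε
    positivity
  calc B * (1 + |T|) ^ a * (Q i ^ κ * Q i ^ ε) ≤ |B| * (1 + |T|) ^ a * (Q i ^ κ * Q i ^ ε) := by
        apply mul_le_mul_of_nonneg_right _ hQ1
        exact mul_le_mul_of_nonneg_right (le_abs_self B) (Real.rpow_nonneg (by linarith) _)
    _ ≤ |B| * ((1 + |T|) ^ ε * (1 + |T|) ^ (max a 0)) * (Q i ^ κ * Q i ^ ε) := by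
        apply mul_le_mul_of_nonneg_right _ hQ1
        exact mul_le_mul_of_nonneg_left h1 (abs_nonneg B)
    _ = _ := by ring

lemma PB_of {Q : ι → ℝ} (hQ : ∀ i, 1 ≤ Q i) {κ : ℝ} {F : ι → ℝ → ℝ} {a : ℝ}
    (h : ∀ ε : ℝ, 0 < ε → ∃ B : ℝ, ∀ (i : ι) (T : ℝ),
      F i T ≤ B * ((Q i * (1 + |T|)) ^ ε * (Q i ^ κ * (1 + |T|) ^ a))) : PB Q κ F := by
  refine ⟨a + 1, fun ε hε => ?_⟩
  obtain ⟨B, hB⟩ := h (min ε 1) (by positivity)
  refine ⟨|B|, fun i T => (hB i T).trans ?_⟩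
  have hq := hQ i
  have hT : 1 ≤ 1 + |T| := by linarith [abs_nonneg T]
  have h1 : (1 + |T|) ^ (min ε 1) * (1 + |T|) ^ a ≤ (1 + |T|) ^ (a + 1) := by
    rw [← Real.rpow_add (by linarith)]
    apply Real.rpow_le_rpow_of_exponent_le hT
    linarith [min_le_right ε 1]
  have h2 : Q i ^ (min ε 1) * Q i ^ κ ≤ Q i ^ (κ + ε) := by
    rw [← Real.rpow_add (by linarith)]
    apply Real.rpow_le_rpow_of_exponent_le hq
    linarith [min_le_left ε 1]
  rw [Real.mul_rpow (by linarith) (by linarith)]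
  have p1 : 0 ≤ (1 + |T|) ^ (min ε 1) * (1 + |T|) ^ a :=
    mul_nonneg (Real.rpow_nonneg (by linarith) _) (Real.rpow_nonneg (by linarith) _)
  have p2 : 0 ≤ Q i ^ (min ε 1) * Q i ^ κ :=
    mul_nonneg (Real.rpow_nonneg (by linarith) _) (Real.rpow_nonneg (by linarith) _)
  calc B * (Q i ^ (min ε 1) * (1 + |T|) ^ (min ε 1) * (Q i ^ κ * (1 + |T|) ^ a))
      = B * (((1 + |T|) ^ (min ε 1) * (1 + |T|) ^ a) * (Q i ^ (min ε 1) * Q i ^ κ)) := by ring
    _ ≤ |B| * (((1 + |T|) ^ (min ε 1) * (1 + |T|) ^ a) * (Q i ^ (min ε 1) * Q i ^ κ)) :=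
        mul_le_mul_of_nonneg_right (le_abs_self B) (mul_nonneg p1 p2)
    _ ≤ |B| * ((1 + |T|) ^ (a + 1) * Q i ^ (κ + ε)) := by
        apply mul_le_mul_of_nonneg_left _ (abs_nonneg B)
        exact mul_le_mul h1 h2 p2 (Real.rpow_nonneg (by linarith) _)
    _ = _ := by ring

lemma wtQ {Q : ι → ℝ} (hQ : ∀ i, 1 ≤ Q i) {κ a : ℝ} (hκ : 0 ≤ κ) (ha : 0 ≤ a) :
    Wt (fun i T => Q i ^ κ * (1 + |T|) ^ a) a where
  a0 := ha
  W1 := by
    intro i t
    have h1 := Real.one_le_rpow (hQ i) hκ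
    have h2 : 1 ≤ (1 + |t|) ^ a := Real.one_le_rpow (by linarith [abs_nonneg t]) ha
    nlinarith
  Wsh := by
    intro i t u
    have h1 : (1 + |t + u|) ^ a ≤ (1 + |u|) ^ a * (1 + |t|) ^ a := by
      rw [← Real.mul_rpow (by positivity) (by positivity)]
      apply Real.rpow_le_rpow (by positivity) _ ha
      have := abs_add_le t u
      nlinarith [abs_nonneg t, abs_nonneg u, mul_nonneg (abs_nonneg t) (abs_nonneg u)]
    have h2 : 0 ≤ Q i ^ κ := Real.rpow_nonneg (by linarith [hQ i]) _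
    calc Q i ^ κ * (1 + |t + u|) ^ a ≤ Q i ^ κ * ((1 + |u|) ^ a * (1 + |t|) ^ a) :=
          mul_le_mul_of_nonneg_left h1 h2
      _ = _ := by ring

lemma xsh {Q : ι → ℝ} (hQ : ∀ i, 1 ≤ Q i) (i : ι) (t u : ℝ) :
    Q i * (1 + |t + u|) ≤ (1 + |u|) * (Q i * (1 + |t|)) := by
  have h2 : 1 + |t + u| ≤ (1 + |u|) * (1 + |t|) := by
    have := abs_add_le t u
    nlinarith [abs_nonneg t, abs_nonneg u, mul_nonneg (abs_nonneg t) (abs_nonneg u)]
  calc Q i * (1 + |t + u|) ≤ Q i * ((1 + |u|) * (1 + |t|)) :=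
        mul_le_mul_of_nonneg_left h2 (by linarith [hQ i])
    _ = _ := by ring

variable {Q : ι → ℝ}

theorem pb_mean_iff (hQ : ∀ i, 1 ≤ Q i) (H : TF0 f (fun i T => Q i * (1 + |T|))) {κ : ℝ} (hκ : 0 ≤ κ)
    (h : ℝ) : PB Q κ (fun i T => ‖∫ u in T..(T + h), vl f i u‖) ↔
      PB Q κ (fun i T => ‖vl f i (T + h) - vl f i T‖) := by
  constructor
  · intro h1
    obtain ⟨a, ha, h2⟩ := PB_to hQ h1
    exact PB_of hQ (mean_incr0 H (wtQ hQ hκ ha) (h := h) h2)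
  · intro h1
    obtain ⟨a, ha, h2⟩ := PB_to hQ h1
    exact PB_of hQ (incr_mean0 H (wtQ hQ hκ ha) (h := h) h2)

theorem pb_expo_mean (hQ : ∀ i, 1 ≤ Q i) (H : TF0 f (fun i T => Q i * (1 + |T|))) {κ : ℝ} (hκ : 0 ≤ κ)
    (h : ℝ) (h1 : PB Q κ (fun i T => ‖vl f i T‖)) :
    PB Q κ (fun i T => ‖∫ u in T..(T + h), vl f i u‖) := by
  obtain ⟨a, ha, h2⟩ := PB_to hQ h1
  exact PB_of hQ (expo_mean0 H (wtQ hQ hκ ha) h2 h)

lemma pb_neg (hQ : ∀ i, 1 ≤ Q i) {κ h : ℝ}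
    (h1 : PB Q κ (fun i T => ‖vl f i (T + h) - vl f i T‖)) :
    PB Q κ (fun i T => ‖vl f i (T + -h) - vl f i T‖) := by
  obtain ⟨a, ha⟩ := h1
  refine ⟨max a 0, fun ε hε => ?_⟩
  obtain ⟨B, hB⟩ := ha ε hε
  refine ⟨|B| * (1 + |h|) ^ (max a 0), fun i T => ?_⟩
  have h2 := hB i (T + -h)
  simp only [show T + -h + h = T by ring] at h2
  rw [norm_sub_rev] at h2
  refine h2.trans ?_
  have hq := hQ i
  have hq2 : 0 ≤ Q i ^ (κ + ε) := Real.rpow_nonneg (by linarith) _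
  apply mul_le_mul_of_nonneg_right _ hq2
  have h3 : (1 + |T + -h|) ^ a ≤ (1 + |h|) ^ (max a 0) * (1 + |T|) ^ (max a 0) := by
    rw [← Real.mul_rpow (by positivity) (by positivity)]
    calc (1 + |T + -h|) ^ a ≤ (1 + |T + -h|) ^ (max a 0) :=
          Real.rpow_le_rpow_of_exponent_le (by linarith [abs_nonneg (T + -h)]) (le_max_left _ _)
      _ ≤ _ := by
          apply Real.rpow_le_rpow (by positivity) _ (le_max_right _ _)
          have := abs_add_le T (-h)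
          rw [abs_neg] at this
          nlinarith [abs_nonneg T, abs_nonneg h, mul_nonneg (abs_nonneg T) (abs_nonneg h)]
  calc B * (1 + |T + -h|) ^ a ≤ |B| * (1 + |T + -h|) ^ a :=
        mul_le_mul_of_nonneg_right (le_abs_self B) (Real.rpow_nonneg (by positivity) _)
    _ ≤ |B| * ((1 + |h|) ^ (max a 0) * (1 + |T|) ^ (max a 0)) :=
        mul_le_mul_of_nonneg_left h3 (abs_nonneg B)
    _ = _ := by ring

/-- from one inequality with polynomial losses in `T` to the criterion -/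
lemma pb_level (hQ : ∀ i, 1 ≤ Q i) {κ h C k₀ : ℝ} (hh : 0 < h) (hC : 0 ≤ C) (hk₀ : 0 ≤ k₀)
    (hin : ∀ (i : ι) (T M : ℝ), 0 ≤ M → (∀ k : ℕ, (k : ℝ) ≤ k₀ * (1 + |T|) →
      ‖vl f i (T + k * h + h) - vl f i (T + k * h)‖ ≤ M) → ‖vl f i T‖ ≤ C * (1 + |T|) ^ 4 * M)
    (h1 : PB Q κ (fun i T => ‖vl f i (T + h) - vl f i T‖)) : PB Q κ (fun i T => ‖vl f i T‖) := by
  obtain ⟨a, ha⟩ := h1
  obtain ⟨b, hb⟩ : ∃ b, b = max a 0 := ⟨_, rfl⟩
  have hb0 : 0 ≤ b := by rw [hb]; exact le_max_right _ _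
  have hab : a ≤ b := by rw [hb]; exact le_max_left _ _
  refine ⟨4 + 2 * b, fun ε hε => ?_⟩
  obtain ⟨B, hB⟩ := ha ε hε
  refine ⟨C * (|B| * (1 + k₀ * h) ^ b), fun i T => ?_⟩
  have hq := hQ i
  have hq2 : 0 ≤ Q i ^ (κ + ε) := Real.rpow_nonneg (by linarith) _
  have hT : 1 ≤ 1 + |T| := by linarith [abs_nonneg T]
  have h2 := hin i T (|B| * ((1 + k₀ * h) ^ b * (1 + |T|) ^ (2 * b)) * Q i ^ (κ + ε))
    (by positivity) (by
      intro k hk
      have h3 := hB i (T + k * h)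
      refine h3.trans ?_
      apply mul_le_mul_of_nonneg_right _ hq2
      have hk0 : (0 : ℝ) ≤ k := Nat.cast_nonneg k
      have h4 : 1 + |T + k * h| ≤ (1 + k₀ * h) * (1 + |T|) ^ 2 := by
        have h5 := abs_add_le T (k * h)
        rw [abs_mul, abs_of_nonneg hk0, abs_of_pos hh] at h5
        have h6 : (k : ℝ) * h ≤ k₀ * (1 + |T|) * h := by gcongr
        have h7 : (1 + |T|) ≤ (1 + |T|) ^ 2 := by nlinarith
        have h8 : 0 ≤ k₀ * h := by positivity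
        nlinarith
      have h9 : (1 + |T + k * h|) ^ a ≤ (1 + k₀ * h) ^ b * (1 + |T|) ^ (2 * b) := by
        calc (1 + |T + k * h|) ^ a ≤ (1 + |T + k * h|) ^ b :=
              Real.rpow_le_rpow_of_exponent_le (by linarith [abs_nonneg (T + k * h)]) hab
          _ ≤ ((1 + k₀ * h) * (1 + |T|) ^ 2) ^ b := Real.rpow_le_rpow (by positivity) h4 hb0
          _ = _ := by
            rw [Real.mul_rpow (by positivity) (by positivity), ← Real.rpow_natCast,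
              ← Real.rpow_mul (by positivity)]
            norm_num
      calc B * (1 + |T + k * h|) ^ a ≤ |B| * (1 + |T + k * h|) ^ a :=
            mul_le_mul_of_nonneg_right (le_abs_self B) (Real.rpow_nonneg (by positivity) _)
        _ ≤ _ := mul_le_mul_of_nonneg_left h9 (abs_nonneg B))
  refine h2.trans (le_of_eq ?_)
  rw [Real.rpow_add (by linarith) 4 (2 * b)]
  have e : (1 + |T|) ^ (4 : ℝ) = (1 + |T|) ^ 4 := by
    rw [← Real.rpow_natCast]; norm_num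
  rw [e]
  ring

end Pool.Agent.U645.TL
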