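import Mathlib
import Pool.Agent.U645.TL.L2

/-!
# The inequality for one length: real conductors
-/

set_option autoImplicit false

open Complex Filter Topology Set

namespace Pool.Agent.U645.TL

open Pool.Agent.W188.GLR

lemma three_vals {U F : ℝ → ℂ} (hU : ∀ x, ‖U x‖ = 1)
    (hline : ∀ x, F x = U x * (starRingEnd ℂ) (F x)) (t h : ℝ) :
    ‖U (t + h + h) * (starRingEnd ℂ) (U (t + h)) - U (t + h) * (starRingEnd ℂ) (U t)‖ *
      ‖F (t + h)‖ ≤ 2 * ‖F (t + h) - F t‖ + 2 * ‖F (t + h + h) - F (t + h)‖ := by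
  obtain ⟨F0, hF0⟩ : ∃ F0, F0 = F t := ⟨_, rfl⟩
  obtain ⟨F1, hF1⟩ : ∃ F1, F1 = F (t + h) := ⟨_, rfl⟩
  obtain ⟨F2, hF2⟩ : ∃ F2, F2 = F (t + h + h) := ⟨_, rfl⟩
  obtain ⟨Y0, hY0⟩ : ∃ Y0, Y0 = U t := ⟨_, rfl⟩
  obtain ⟨Y1, hY1⟩ : ∃ Y1, Y1 = U (t + h) := ⟨_, rfl⟩
  obtain ⟨Y2, hY2⟩ : ∃ Y2, Y2 = U (t + h + h) := ⟨_, rfl⟩
  have f0 := hline t
  have f1 := hline (t + h)
  have f2 := hline (t + h + h)
  have n0 := hU t
  have n1 := hU (t + h)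
  have n2 := hU (t + h + h)
  rw [← hF0, ← hY0] at f0
  rw [← hF1, ← hY1] at f1
  rw [← hF2, ← hY2] at f2
  rw [← hY0] at n0
  rw [← hY1] at n1
  rw [← hY2] at n2
  rw [← hF0, ← hF1, ← hF2, ← hY0, ← hY1, ← hY2]
  have q0 : Y0 * (starRingEnd ℂ) Y0 = 1 := by rw [mul_conj, normSq_eq_norm_sq, n0]; simp
  have q1 : Y1 * (starRingEnd ℂ) Y1 = 1 := by rw [mul_conj, normSq_eq_norm_sq, n1]; simp
  have e1 : (Y1 - Y0) * (starRingEnd ℂ) F1 = (F1 - F0) - Y0 * (starRingEnd ℂ) (F1 - F0) := by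
    rw [map_sub]
    linear_combination (-1 : ℂ) * f1 + f0
  have h1 : ‖Y1 - Y0‖ * ‖F1‖ ≤ 2 * ‖F1 - F0‖ := by
    rw [← norm_conj F1, ← norm_mul, e1]
    refine (norm_sub_le _ _).trans ?_
    rw [norm_mul, norm_conj, n0, one_mul]
    linarith
  have e2 : (Y2 - Y1) * (starRingEnd ℂ) F1 = (F2 - F1) - Y2 * (starRingEnd ℂ) (F2 - F1) := by
    rw [map_sub]
    linear_combination (-1 : ℂ) * f2 + f1
  have h2 : ‖Y2 - Y1‖ * ‖F1‖ ≤ 2 * ‖F2 - F1‖ := by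
    rw [← norm_conj F1, ← norm_mul, e2]
    refine (norm_sub_le _ _).trans ?_
    rw [norm_mul, norm_conj, n2, one_mul]
    linarith
  have h3 : ‖Y2 * (starRingEnd ℂ) Y1 - Y1 * (starRingEnd ℂ) Y0‖ ≤ ‖Y2 - Y1‖ + ‖Y1 - Y0‖ := by
    have e3 : Y2 * (starRingEnd ℂ) Y1 - Y1 * (starRingEnd ℂ) Y0 =
        (Y2 - Y1) * (starRingEnd ℂ) Y1 - (Y1 - Y0) * (starRingEnd ℂ) Y0 := by
      linear_combination q1 - q0
    rw [e3]
    refine (norm_sub_le _ _).trans ?_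
    rw [norm_mul, norm_mul, norm_conj, norm_conj, n1, n0, mul_one, mul_one]
  calc _ ≤ (‖Y2 - Y1‖ + ‖Y1 - Y0‖) * ‖F1‖ := mul_le_mul_of_nonneg_right h3 (norm_nonneg _)
    _ = ‖Y1 - Y0‖ * ‖F1‖ + ‖Y2 - Y1‖ * ‖F1‖ := by ring
    _ ≤ _ := add_le_add h1 h2

/-- the combination of the inequality for three values with the phase -/
theorem ineq_core {E A h : ℝ} (hA0 : 0 ≤ A) (hh : 0 < h) : ∃ D C k₀ : ℝ, 4 ≤ D ∧ 2 * h ≤ D ∧
    E ≤ D ∧ 0 ≤ C ∧ 0 ≤ k₀ ∧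
    ∀ U F : ℝ → ℂ, (∀ x, ‖U x‖ = 1) → (∀ x, F x = U x * (starRingEnd ℂ) (F x)) →
      (∀ t, A + D ≤ t → h ^ 2 / (8 * (t + A + 2 * h + 2) ^ 4) ≤
        ‖U (t + h + h) * (starRingEnd ℂ) (U (t + h)) - U (t + h) * (starRingEnd ℂ) (U t)‖) →
      ∀ T M : ℝ, 0 ≤ M → (∀ k : ℕ, (k : ℝ) ≤ k₀ * (1 + |T|) →
        ‖F (T + k * h + h) - F (T + k * h)‖ ≤ M) → ‖F T‖ ≤ C * (1 + |T|) ^ 4 * M := by
  obtain ⟨D, hD⟩ : ∃ D : ℝ, D = max 4 (max (2 * h) E) := ⟨_, rfl⟩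
  have hD4 : 4 ≤ D := by rw [hD]; exact le_max_left _ _
  have hDh : 2 * h ≤ D := by rw [hD]; exact (le_max_left _ _).trans (le_max_right _ _)
  have hDm : E ≤ D := by rw [hD]; exact (le_max_right _ _).trans (le_max_right _ _)
  obtain ⟨R, hR⟩ : ∃ R : ℝ, R = A + D := ⟨_, rfl⟩
  have hR0 : 0 < R := by linarith
  obtain ⟨B, hB⟩ : ∃ B : ℝ, B = R + A + 3 * h + 2 := ⟨_, rfl⟩
  have hB1 : 1 ≤ B := by linarith
  refine ⟨D, 32 * B ^ 4 / h ^ 2 + (R / h + 1 / h + 2), R / h + 1 / h + 2, hD4, hDh, hDm,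
    by positivity, by positivity, ?_⟩
  intro U F hU hline hphase T M hM hΔ
  obtain ⟨k, hk⟩ : ∃ k : ℕ, k = ⌈max (R - T) 0 / h⌉₊ := ⟨_, rfl⟩
  have hk1 : max (R - T) 0 ≤ k * h := by
    have := Nat.le_ceil (max (R - T) 0 / h)
    rw [← hk, div_le_iff₀ hh] at this
    exact this
  have hk2 : (k : ℝ) ≤ max (R - T) 0 / h + 1 := by
    rw [hk]
    exact (Nat.ceil_lt_add_one (by positivity)).le
  have hmax : max (R - T) 0 ≤ R + |T| := by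
    apply max_le
    · linarith [neg_abs_le T]
    · positivity
  have hT0 := abs_nonneg T
  obtain ⟨t, ht⟩ : ∃ t : ℝ, t = T + k * h := ⟨_, rfl⟩
  have htR : A + D ≤ t := by
    have := le_max_left (R - T) 0
    rw [ht, ← hR]; linarith
  have htup : t ≤ R + |T| + h := by
    have h1 : (k : ℝ) * h ≤ max (R - T) 0 + h := by
      calc (k : ℝ) * h ≤ (max (R - T) 0 / h + 1) * h := by gcongr
        _ = _ := by field_simp
    have h2 : T + max (R - T) 0 ≤ R + |T| := by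
      rcases le_total (R - T) 0 with h3 | h3
      · rw [max_eq_right h3]; linarith [le_abs_self T]
      · rw [max_eq_left h3]; linarith
    rw [ht]; linarith
  have hk3 : (k : ℝ) + 1 ≤ (R / h + 1 / h + 2) * (1 + |T|) := by
    have h1 : max (R - T) 0 / h ≤ (R + |T|) / h := by gcongr
    have e : (R / h + 1 / h + 2) * (1 + |T|) =
        (R + |T|) / h + 2 + (R / h * |T| + 1 / h + 2 * |T|) := by ring
    rw [e]
    have : 0 ≤ R / h * |T| + 1 / h + 2 * |T| := by positivity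
    linarith
  have hrange : ∀ j : ℕ, j ≤ k + 1 → (j : ℝ) ≤ (R / h + 1 / h + 2) * (1 + |T|) := by
    intro j hj
    refine le_trans ?_ hk3
    exact_mod_cast hj
  -- the three values
  have h3 := three_vals hU hline t h
  have hturn := hphase t htR
  have d0 := hΔ k (hrange k (by omega))
  have d1 := hΔ (k + 1) (hrange (k + 1) le_rfl)
  have e1 : T + ((k + 1 : ℕ) : ℝ) * h = t + h := by rw [ht]; push_cast; ring
  rw [← ht] at d0
  rw [e1] at d1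
  have htp : 0 < t + A + 2 * h + 2 := by linarith
  have htB : t + A + 2 * h + 2 ≤ B * (1 + |T|) := by
    rw [hB]
    nlinarith
  have hF : ‖F (t + h)‖ ≤ 32 * B ^ 4 / h ^ 2 * (1 + |T|) ^ 4 * M := by
    obtain ⟨G, hG⟩ : ∃ G, G = ‖F (t + h)‖ := ⟨_, rfl⟩
    have hG0 : 0 ≤ G := by rw [hG]; exact norm_nonneg _
    rw [← hG] at h3 ⊢
    have h4 : h ^ 2 / (8 * (t + A + 2 * h + 2) ^ 4) * G ≤ 4 * M := by
      refine (mul_le_mul_of_nonneg_right hturn hG0).trans (h3.trans ?_)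
      linarith
    rw [div_mul_eq_mul_div, div_le_iff₀ (mul_pos (by norm_num) (pow_pos htp 4))] at h4
    have h5 : (t + A + 2 * h + 2) ^ 4 ≤ (B * (1 + |T|)) ^ 4 := pow_le_pow_left₀ htp.le htB 4
    rw [div_mul_eq_mul_div, div_mul_eq_mul_div, le_div_iff₀ (by positivity)]
    calc G * h ^ 2 = h ^ 2 * G := mul_comm _ _
      _ ≤ 4 * M * (8 * (t + A + 2 * h + 2) ^ 4) := h4
      _ ≤ 4 * M * (8 * (B * (1 + |T|)) ^ 4) := by gcongr
      _ = _ := by ring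
  have hmv := move' F T h M (k + 1) (fun j hj => hΔ j (hrange j (by omega)))
  rw [e1] at hmv
  have h6 : 1 ≤ (1 + |T|) ^ 3 := one_le_pow₀ (by linarith)
  have h7 : (((k + 1 : ℕ) : ℕ) : ℝ) * M ≤ (R / h + 1 / h + 2) * (1 + |T|) ^ 4 * M := by
    apply mul_le_mul_of_nonneg_right _ hM
    push_cast
    refine hk3.trans ?_
    have e : (R / h + 1 / h + 2) * (1 + |T|) ^ 4 = (R / h + 1 / h + 2) * (1 + |T|) * (1 + |T|) ^ 3 := by
      ring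
    rw [e]
    exact le_mul_of_one_le_right (by positivity) h6
  calc ‖F T‖ ≤ _ := hmv
    _ ≤ 32 * B ^ 4 / h ^ 2 * (1 + |T|) ^ 4 * M + (R / h + 1 / h + 2) * (1 + |T|) ^ 4 * M :=
        add_le_add hF h7
    _ = _ := by ring

variable {m : ℕ}

lemma cpow_pos {q : ℝ} (hq : 0 < q) (w : ℂ) : (q : ℂ) ^ w = cexp (Real.log q * w) := by
  rw [cpow_def_of_ne_zero (by exact_mod_cast hq.ne'), ofReal_log hq.le]

/-- the functional equation with a real conductor, reduced to conductor one -/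
lemma fe_one {q : ℝ} (hq : 0 < q) {mu : Fin m → ℂ} {root : ℂ} {f : ℂ → ℂ}
    (hfe : ∀ s : ℂ, f s * ∏ j, (Gammaℝ (1 - s - (starRingEnd ℂ) (mu j)))⁻¹ =
      root * (q : ℂ) ^ (1 / 2 - s) * (starRingEnd ℂ) (f (1 - (starRingEnd ℂ) s)) *
        ∏ j, (Gammaℝ (s - mu j))⁻¹) (s : ℂ) :
    ((q : ℂ) ^ ((s - 1 / 2) / 2) * f s) * ∏ j, (Gammaℝ (1 - s - (starRingEnd ℂ) (mu j)))⁻¹ =
      root * ((1 : ℕ) : ℂ) ^ (1 / 2 - s) * (starRingEnd ℂ)
        ((q : ℂ) ^ ((1 - (starRingEnd ℂ) s - 1 / 2) / 2) * f (1 - (starRingEnd ℂ) s)) *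
        ∏ j, (Gammaℝ (s - mu j))⁻¹ := by
  rw [Nat.cast_one, one_cpow, mul_one, map_mul, mul_assoc, hfe s, cpow_pos hq, cpow_pos hq,
    cpow_pos hq, ← exp_conj]
  have e : (starRingEnd ℂ) ((Real.log q : ℂ) * ((1 - (starRingEnd ℂ) s - 1 / 2) / 2)) =
      (Real.log q : ℂ) * ((s - 1 / 2) / 2) + (Real.log q : ℂ) * (1 / 2 - s) := by
    simp only [map_mul, map_div₀, map_sub, map_one, conj_ofReal, conj_conj]
    have : (starRingEnd ℂ) 2 = 2 := by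
      have := conj_ofReal 2
      exact_mod_cast this
    rw [this]
    ring
  rw [e, Complex.exp_add]
  ring

/-- the phase of an L-function with a real conductor -/
noncomputable def UU (q : ℝ) (mu : Fin m → ℂ) (root : ℂ) (x : ℝ) : ℂ :=
  Y 1 mu root x * cexp (((-(Real.log q * x) : ℝ) : ℂ) * I)

lemma norm_UU {q : ℝ} {mu : Fin m → ℂ} (hmu : ∀ j, (mu j).re < 1 / 2) {root : ℂ}
    (hroot : ‖root‖ = 1) (x : ℝ) : ‖UU q mu root x‖ = 1 := by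
  unfold UU
  rw [norm_mul, norm_Y one_pos hmu hroot, norm_exp_ofReal_mul_I, one_mul]

lemma line_UU {q : ℝ} (hq : 0 < q) {mu : Fin m → ℂ} (hmu : ∀ j, (mu j).re < 1 / 2) {root : ℂ}
    {f : ℂ → ℂ}
    (hfe : ∀ s : ℂ, f s * ∏ j, (Gammaℝ (1 - s - (starRingEnd ℂ) (mu j)))⁻¹ =
      root * (q : ℂ) ^ (1 / 2 - s) * (starRingEnd ℂ) (f (1 - (starRingEnd ℂ) s)) *
        ∏ j, (Gammaℝ (s - mu j))⁻¹) (x : ℝ) :
    f (1 / 2 + (x : ℂ) * I) = UU q mu root x * (starRingEnd ℂ) (f (1 / 2 + (x : ℂ) * I)) := by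
  have h1 := fe_XD (f := fun s => (q : ℂ) ^ ((s - 1 / 2) / 2) * f s) (N := 1) (mu := mu)
    (root := root) (fe_one hq hfe) (reg_line hmu (s := 1 / 2 + (x : ℂ) * I) (by simp))
  have e : 1 - (starRingEnd ℂ) (1 / 2 + (x : ℂ) * I) = 1 / 2 + (x : ℂ) * I := by
    apply Complex.ext
    · simp; norm_num
    · simp
  simp only [e] at h1
  have e1 : (q : ℂ) ^ ((1 / 2 + (x : ℂ) * I - 1 / 2) / 2) =
      cexp (((Real.log q * x / 2 : ℝ) : ℂ) * I) := by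
    rw [cpow_pos hq]; congr 1; push_cast; ring
  rw [e1, map_mul, ← exp_conj] at h1
  have e2 : (starRingEnd ℂ) (((Real.log q * x / 2 : ℝ) : ℂ) * I) =
      -(((Real.log q * x / 2 : ℝ) : ℂ) * I) := by
    rw [map_mul, conj_ofReal, conj_I]; ring
  rw [e2] at h1
  have e3 : cexp (((Real.log q * x / 2 : ℝ) : ℂ) * I) * cexp (-(((Real.log q * x / 2 : ℝ) : ℂ) * I)) = 1 := by
    rw [← Complex.exp_add, add_neg_cancel, Complex.exp_zero]
  have e4 : cexp (((-(Real.log q * x) : ℝ) : ℂ) * I) =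
      cexp (-(((Real.log q * x / 2 : ℝ) : ℂ) * I)) * cexp (-(((Real.log q * x / 2 : ℝ) : ℂ) * I)) := by
    rw [← Complex.exp_add]; congr 1; push_cast; ring
  unfold UU
  rw [e4]
  have h2 : f (1 / 2 + (x : ℂ) * I) = cexp (-(((Real.log q * x / 2 : ℝ) : ℂ) * I)) *
      (cexp (((Real.log q * x / 2 : ℝ) : ℂ) * I) * f (1 / 2 + (x : ℂ) * I)) := by
    rw [← mul_assoc, mul_comm (cexp (-(((Real.log q * x / 2 : ℝ) : ℂ) * I))), e3, one_mul]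
  conv_lhs => rw [h2, h1]
  show _ * (Y 1 mu root x * _) = _
  ring

/-- the inequality for one length, uniform in the conductor -/
theorem level_ineq (hm : 1 ≤ m) {A h : ℝ} (hA0 : 0 ≤ A) (hh : 0 < h) : ∃ C k₀ : ℝ, 0 ≤ C ∧ 0 ≤ k₀ ∧
    ∀ (q : ℝ) (mu : Fin m → ℂ) (root : ℂ) (f : ℂ → ℂ), 0 < q → (∀ j, (mu j).re < 1 / 2) →
      (∀ j, ‖mu j‖ ≤ A) → ‖root‖ = 1 →
      (∀ s : ℂ, f s * ∏ j, (Gammaℝ (1 - s - (starRingEnd ℂ) (mu j)))⁻¹ =
        root * (q : ℂ) ^ (1 / 2 - s) * (starRingEnd ℂ) (f (1 - (starRingEnd ℂ) s)) *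
          ∏ j, (Gammaℝ (s - mu j))⁻¹) →
      ∀ T M : ℝ, 0 ≤ M → (∀ k : ℕ, (k : ℝ) ≤ k₀ * (1 + |T|) →
        ‖f (1 / 2 + ((T + k * h + h : ℝ) : ℂ) * I) - f (1 / 2 + ((T + k * h : ℝ) : ℂ) * I)‖ ≤ M) →
      ‖f (1 / 2 + (T : ℂ) * I)‖ ≤ C * (1 + |T|) ^ 4 * M := by
  obtain ⟨D, C, k₀, hD4, hDh, hDm, hC, hk, hcore⟩ := ineq_core (E := 16 * m * h ^ 2) hA0 hh
  refine ⟨C, k₀, hC, hk, ?_⟩
  intro q mu root f hq hmu hA hroot hfe
  refine hcore (UU q mu root) (fun x => f (1 / 2 + (x : ℂ) * I)) (norm_UU hmu hroot)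
    (line_UU hq hmu hfe) ?_
  intro t ht
  have h1 := phase_turn hm one_pos hmu hroot (A := A) (D := D) (h := h) (t := t) hA hh hD4 hDh hDm ht
  refine h1.trans (le_of_eq ?_)
  have e : ∀ x : ℝ, UU q mu root (x + h) * (starRingEnd ℂ) (UU q mu root x) =
      cexp (((-(Real.log q * h) : ℝ) : ℂ) * I) *
        (Y 1 mu root (x + h) * (starRingEnd ℂ) (Y 1 mu root x)) := by
    intro x
    unfold UU
    rw [map_mul, ← exp_conj]
    have e2 : (starRingEnd ℂ) (((-(Real.log q * x) : ℝ) : ℂ) * I) =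
        ((Real.log q * x : ℝ) : ℂ) * I := by
      rw [map_mul, conj_ofReal, conj_I]; push_cast; ring
    have e3 : cexp (((-(Real.log q * (x + h)) : ℝ) : ℂ) * I) * cexp (((Real.log q * x : ℝ) : ℂ) * I) =
        cexp (((-(Real.log q * h) : ℝ) : ℂ) * I) := by
      rw [← Complex.exp_add]; congr 1; push_cast; ring
    rw [e2, ← e3]
    ring
  rw [e, e, ← mul_sub, norm_mul, norm_exp_ofReal_mul_I, one_mul]

end Pool.Agent.U645.TL
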