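import Mathlib
import Pool.Agent.U645.TL.L3
import Pool.Agent.U693.QT.Poly
import Pool.Agent.Y19.QT.ZD2

/-!
# The quadratic twists of an elliptic curve
-/

set_option autoImplicit false

open Complex Filter Topology Set

namespace Pool.Agent.U645.TL

open Pool.Agent.Y19.QT Pool.Agent.Y703.QT8 Pool.Agent.Y180.QT12b2
open Pool.Agent.H306R2.RZ (js)

section real

variable {m : ℕ}

/-- the reflection with a real conductor -/
lemma refl_real {q : ℝ} (hq : 0 < q) (mu : Fin m → ℂ) (hmu : ∀ j, (mu j).re < 1 / 2)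
    {root : ℂ} (hroot : ‖root‖ = 1) {f : ℂ → ℂ}
    (hfe : ∀ s : ℂ, f s * ∏ j, (Gammaℝ (1 - s - (starRingEnd ℂ) (mu j)))⁻¹ =
      root * (q : ℂ) ^ (1 / 2 - s) * (starRingEnd ℂ) (f (1 - (starRingEnd ℂ) s)) *
        ∏ j, (Gammaℝ (s - mu j))⁻¹)
    {x t : ℝ} (hx0 : 0 ≤ x) (hx1 : x ≤ 3 / 4) :
    ‖f ⟨1 / 2 - x, t⟩‖ ≤ 16 ^ m * (q * ∏ j, (1 + ‖mu j - t * I‖)) ^ x * ‖f ⟨1 / 2 + x, t⟩‖ := by
  have h := H855R2.SF.refl_of_fe (N := 1) one_pos mu hmu hroot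
    (f := fun s => (q : ℂ) ^ ((s - 1 / 2) / 2) * f s) (fe_one hq hfe) (t := t) hx0 hx1
  have hP : 0 ≤ ∏ j, (1 + ‖mu j - t * I‖) := Finset.prod_nonneg fun j _ => by positivity
  have e1 : ‖(q : ℂ) ^ (((⟨1 / 2 - x, t⟩ : ℂ) - 1 / 2) / 2)‖ = q ^ (-(x / 2)) := by
    rw [norm_cpow_eq_rpow_re_of_pos hq]
    congr 1
    have : (((⟨1 / 2 - x, t⟩ : ℂ) - 1 / 2) / 2).re = ((⟨1 / 2 - x, t⟩ : ℂ) - 1 / 2).re / 2 := by simp
    rw [this, sub_re]
    norm_num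
    ring
  have e2 : ‖(q : ℂ) ^ (((⟨1 / 2 + x, t⟩ : ℂ) - 1 / 2) / 2)‖ = q ^ (x / 2) := by
    rw [norm_cpow_eq_rpow_re_of_pos hq]
    congr 1
    have : (((⟨1 / 2 + x, t⟩ : ℂ) - 1 / 2) / 2).re = ((⟨1 / 2 + x, t⟩ : ℂ) - 1 / 2).re / 2 := by simp
    rw [this, sub_re]
    norm_num
  simp only [norm_mul, e1, e2, Nat.cast_one, one_mul] at h
  have hq1 : 0 < q ^ (x / 2) := Real.rpow_pos_of_pos hq _
  have h2 : q ^ (x / 2) * (q ^ (-(x / 2)) * ‖f ⟨1 / 2 - x, t⟩‖) ≤ q ^ (x / 2) *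
      (16 ^ m * (∏ j, (1 + ‖mu j - t * I‖)) ^ x * (q ^ (x / 2) * ‖f ⟨1 / 2 + x, t⟩‖)) :=
    mul_le_mul_of_nonneg_left h hq1.le
  rw [← mul_assoc, ← Real.rpow_add hq, add_neg_cancel, Real.rpow_zero, one_mul] at h2
  refine h2.trans (le_of_eq ?_)
  rw [Real.mul_rpow hq.le hP]
  have e3 : q ^ x = q ^ (x / 2) * q ^ (x / 2) := by rw [← Real.rpow_add hq]; congr 1; ring
  rw [e3]
  ring

end real

variable {Q : ℕ} {lam : ℕ → ℝ}

/-- the archimedean parameters of an elliptic curve over the rational numbers -/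
noncomputable def muW : Fin 2 → ℂ := ![-1 / 2, -3 / 2]

lemma muW_re (j : Fin 2) : (muW j).re < 1 / 2 := by
  fin_cases j <;> simp [muW] <;> norm_num

lemma muW_norm (j : Fin 2) : ‖muW j‖ ≤ 3 / 2 := by
  fin_cases j <;> simp [muW] <;> norm_num

/-- the functional equation -/
theorem tw_fe (T : Twists Q lam) {d : ℤ} (hd : Squarefree d) (s : ℂ) :
    T.ell d s * ∏ j, (Gammaℝ (1 - s - (starRingEnd ℂ) (muW j)))⁻¹ =
      (T.w d : ℂ) * ((T.q d ^ 2 : ℝ) : ℂ) ^ (1 / 2 - s) *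
        (starRingEnd ℂ) (T.ell d (1 - (starRingEnd ℂ) s)) * ∏ j, (Gammaℝ (s - muW j))⁻¹ := by
  have hq := q_pos T hd
  have hpi := Real.pi_pos
  have c2 : (starRingEnd ℂ) (2 : ℂ) = 2 := by
    have := conj_ofReal 2
    exact_mod_cast this
  have c3 : (starRingEnd ℂ) (3 : ℂ) = 3 := by
    have := conj_ofReal 3
    exact_mod_cast this
  rw [← ell_conj T hd, map_sub, map_one, conj_conj, Fin.prod_univ_two, Fin.prod_univ_two]
  have g1 : (Gammaℝ (1 - s - (starRingEnd ℂ) (muW 0)))⁻¹ * (Gammaℝ (1 - s - (starRingEnd ℂ) (muW 1)))⁻¹ =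
      (Gammaℂ (3 / 2 - s))⁻¹ := by
    rw [← mul_inv, ← Gammaℝ_mul_Gammaℝ_add_one]
    congr 3
    · simp only [muW, Matrix.cons_val_zero, map_div₀, map_neg, map_one, c2]; ring
    · simp only [muW, Matrix.cons_val_one, Matrix.cons_val_fin_one, map_div₀, map_neg, c3, c2]; ring
  have g2 : (Gammaℝ (s - muW 0))⁻¹ * (Gammaℝ (s - muW 1))⁻¹ = (Gammaℂ (s + 1 / 2))⁻¹ := by
    rw [← mul_inv, ← Gammaℝ_mul_Gammaℝ_add_one]
    congr 3
    · simp only [muW, Matrix.cons_val_zero]; ring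
    · simp only [muW, Matrix.cons_val_one, Matrix.cons_val_fin_one]; ring
  rw [g1, g2, Gammaℂ_def, Gammaℂ_def]
  unfold Twists.ell
  have e0 : (1 - s + 1 / 2 : ℂ) = 2 - (s + 1 / 2) := by ring
  rw [e0, mellin_fe T hd]
  have e1 : (2 - (s + 1 / 2) : ℂ) = 3 / 2 - s := by ring
  rw [e1]
  have p2 : (2 * Real.pi : ℂ) = ((2 * Real.pi : ℝ) : ℂ) := by push_cast; rfl
  have p1 : (2 * Real.pi / (T.q d : ℂ)) = ((2 * Real.pi / T.q d : ℝ) : ℂ) := by push_cast; rfl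
  rw [p1, p2, cpow_pos (by positivity), cpow_pos (by positivity), cpow_pos (by positivity),
    cpow_pos (by positivity), cpow_pos (by positivity), Real.log_div (by positivity) hq.ne',
    Real.log_pow]
  obtain ⟨M, hM⟩ : ∃ M, M = mellin (fun u : ℝ => T.F d (u : ℂ)) (s + 1 / 2) := ⟨_, rfl⟩
  obtain ⟨G1, hG1⟩ : ∃ G, G = Complex.Gamma (s + 1 / 2) := ⟨_, rfl⟩
  obtain ⟨G2, hG2⟩ : ∃ G, G = Complex.Gamma (3 / 2 - s) := ⟨_, rfl⟩
  rw [← hM, ← hG1, ← hG2]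
  have hw : (T.w d : ℂ) ^ 2 = 1 := by exact_mod_cast T.w_sq d hd
  simp only [mul_inv, ← Complex.exp_neg]
  have key : cexp (((Real.log (2 * Real.pi) - Real.log (T.q d) : ℝ) : ℂ) * (s + 1 / 2)) *
      cexp (-(((Real.log (2 * Real.pi) : ℝ) : ℂ) * -(3 / 2 - s))) =
      cexp ((((2 : ℕ) * Real.log (T.q d) : ℝ) : ℂ) * (1 / 2 - s)) *
      cexp (((Real.log (2 * Real.pi) - Real.log (T.q d) : ℝ) : ℂ) * (3 / 2 - s)) *
      cexp (-(((Real.log (2 * Real.pi) : ℝ) : ℂ) * -(s + 1 / 2))) := by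
    rw [← Complex.exp_add, ← Complex.exp_add, ← Complex.exp_add]
    congr 1
    push_cast
    ring
  linear_combination (G1⁻¹ * M * 2⁻¹ * G2⁻¹) * key - (G1⁻¹ * M * 2⁻¹ * G2⁻¹) *
    (cexp ((((2 : ℕ) * Real.log (T.q d) : ℝ) : ℂ) * (1 / 2 - s)) *
      cexp (((Real.log (2 * Real.pi) - Real.log (T.q d) : ℝ) : ℂ) * (3 / 2 - s)) *
      cexp (-(((Real.log (2 * Real.pi) : ℝ) : ℂ) * -(s + 1 / 2)))) * hw

/-- the bound in the half plane of absolute convergence -/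
theorem tw_right (T : Twists Q lam) : ∃ B : ℝ, 0 ≤ B ∧ ∀ (d : ℤ) (s : ℂ), Squarefree d →
    2 ≤ s.re → ‖T.ell d s‖ ≤ B := by
  have hc := T.one_le_c
  have hS : Summable fun n => ‖LSeries.term Pool.Agent.Y500.QTZ4.Dv ((2 : ℝ) : ℂ) n‖ :=
    (Pool.Agent.Y500.QTZ4.Dv_summable (s := ((2 : ℝ) : ℂ)) (by norm_num)).norm
  refine ⟨T.c * ∑' n, ‖LSeries.term Pool.Agent.Y500.QTZ4.Dv ((2 : ℝ) : ℂ) n‖,
    mul_nonneg (by linarith) (tsum_nonneg fun _ => norm_nonneg _), ?_⟩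
  have hbig : ∀ (d : ℤ) (s : ℂ), Squarefree d → 2 < s.re →
      ‖T.ell d s‖ ≤ T.c * ∑' n, ‖LSeries.term Pool.Agent.Y500.QTZ4.Dv ((2 : ℝ) : ℂ) n‖ := by
    intro d s hd hs
    have he := summable_quarter (T.e_sum d hd).1 (s := s) (by linarith)
    have hl := summable_two (lj_le T.hecke d) hs
    have hcf0 : T.cf d 0 = 0 := by simp [Twists.cf]
    have h1 : T.ell d s = LSeries (cx (T.e d)) s * LSeries (cx fun n => lam n * js d n) s := by
      rw [ell_dir T hd hs, Pool.Agent.Y180.QT12b2.tsum_eq hcf0, ← LSeries_convolution' he hl]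
      congr 1
      rw [LSeries.convolution_def]
      funext n
      simp only [cx, Twists.cf]
      push_cast
      rfl
    have h2 : ‖LSeries (cx (T.e d)) s‖ ≤ T.c :=
      (Pool.Agent.Y705.QT.hE_bound _ _ (T.e_sum d hd) s (by linarith)).2
    have h3 : ‖LSeries (cx fun n => lam n * js d n) s‖ ≤
        ∑' n, ‖LSeries.term Pool.Agent.Y500.QTZ4.Dv ((2 : ℝ) : ℂ) n‖ := by
      refine tsum_of_norm_bounded hS.hasSum fun n => ?_
      rw [LSeries.norm_term_eq, LSeries.norm_term_eq, Complex.ofReal_re]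
      split_ifs with hn
      · exact le_rfl
      · have hn1 : (1 : ℝ) ≤ n := by exact_mod_cast Nat.one_le_iff_ne_zero.2 hn
        rw [cx, Pool.Agent.Y500.QTZ4.Dv, Complex.norm_real, Real.norm_eq_abs, Complex.norm_natCast]
        have h4 : |lam n * js d n| ≤ (n.divisors.card : ℝ) := by
          rw [abs_mul]
          have h5 := (Pool.Agent.Y180.QT12b1.T12b1 Q lam T.hecke).2.1 n
          calc |lam n| * |js d n| ≤ |lam n| * 1 :=
                mul_le_mul_of_nonneg_left (Pool.Agent.Y180.QT12b2.js_le d n) (abs_nonneg _)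
            _ ≤ _ := by rw [mul_one]; exact h5
        exact div_le_div₀ (Nat.cast_nonneg _) h4 (by positivity)
          (Real.rpow_le_rpow_of_exponent_le hn1 hs.le)
    rw [h1, norm_mul]
    exact mul_le_mul h2 h3 (norm_nonneg _) (by linarith)
  intro d s hd hs
  have hcont : Tendsto (fun u : ℝ => ‖T.ell d (s + (u : ℂ))‖) (𝓝[>] 0) (𝓝 ‖T.ell d s‖) := by
    have h1 : Continuous fun u : ℝ => ‖T.ell d (s + (u : ℂ))‖ :=
      ((ell_diff T hd).continuous.comp (by fun_prop)).norm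
    have h2 := h1.tendsto 0
    simp only [ofReal_zero, add_zero] at h2
    exact h2.mono_left nhdsWithin_le_nhds
  refine le_of_tendsto hcont ?_
  filter_upwards [self_mem_nhdsWithin] with u hu
  apply hbig d _ hd
  have hu' : (0 : ℝ) < u := hu
  have : (s + (u : ℂ)).re = s.re + u := by simp
  rw [this]
  linarith

/-- a polynomial bound -/
theorem tw_crude (T : Twists Q lam) : ∃ C A : ℝ, 0 ≤ C ∧ 0 ≤ A ∧ ∀ (d : ℤ) (s : ℂ), Squarefree d →
    -1 / 4 ≤ s.re → ‖T.ell d s‖ ≤ C * (|(d : ℝ)| * (1 + |s.im|)) ^ A := by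
  have hc := T.one_le_c
  obtain ⟨B, hB0, hB⟩ := tw_right T
  obtain ⟨C, n, hC, hp⟩ := Pool.Agent.U693.QT.ell_poly T
  have hX : ∀ (d : ℤ) (y : ℝ), Squarefree d → 1 ≤ |(d : ℝ)| * (1 + |y|) := by
    intro d y hd
    have h1 := one_le_abs hd
    nlinarith [abs_nonneg y]
  have hmid : ∀ (d : ℤ) (s : ℂ), Squarefree d → 1 / 4 ≤ s.re → s.re ≤ 3 →
      ‖T.ell d s‖ ≤ C * 2 ^ n * (|(d : ℝ)| * (1 + |s.im|)) ^ n := by
    intro d s hd h1 h2
    refine (hp d s hd h1 h2).trans ?_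
    have h3 : |(d : ℝ)| * (2 + |s.im|) ≤ 2 * (|(d : ℝ)| * (1 + |s.im|)) := by
      nlinarith [abs_nonneg s.im, one_le_abs hd, mul_nonneg (abs_nonneg (d : ℝ)) (abs_nonneg s.im)]
    calc C * (|(d : ℝ)| * (2 + |s.im|)) ^ n ≤ C * (2 * (|(d : ℝ)| * (1 + |s.im|))) ^ n := by gcongr
      _ = _ := by rw [mul_pow]; ring
  refine ⟨B + C * 2 ^ n * (16 ^ 2 * (3 * T.c) ^ 2 + 1), ((n + 2 : ℕ) : ℝ), by positivity, by positivity, ?_⟩
  intro d s hd hs
  obtain ⟨X, hXe⟩ : ∃ X, X = |(d : ℝ)| * (1 + |s.im|) := ⟨_, rfl⟩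
  have hX1 : 1 ≤ X := by rw [hXe]; exact hX d s.im hd
  rw [← hXe, Real.rpow_natCast]
  have hXp : 1 ≤ X ^ (n + 2) := one_le_pow₀ hX1
  have hXn : X ^ n ≤ X ^ (n + 2) := pow_le_pow_right₀ hX1 (by omega)
  have hC2 : 0 ≤ C * 2 ^ n := by positivity
  rcases le_or_gt 2 s.re with h2 | h2
  · refine (hB d s hd h2).trans ?_
    have : 0 ≤ C * 2 ^ n * (16 ^ 2 * (3 * T.c) ^ 2 + 1) := by positivity
    nlinarith
  rcases le_or_gt (1 / 4) s.re with h3 | h3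
  · refine (hmid d s hd h3 (by linarith)).trans ?_
    rw [← hXe]
    have h4 : C * 2 ^ n * X ^ n ≤ C * 2 ^ n * X ^ (n + 2) := mul_le_mul_of_nonneg_left hXn hC2
    have h5 : 0 ≤ (B + C * 2 ^ n * (16 ^ 2 * (3 * T.c) ^ 2)) * X ^ (n + 2) := by positivity
    calc _ ≤ C * 2 ^ n * X ^ (n + 2) := h4
      _ ≤ C * 2 ^ n * X ^ (n + 2) + (B + C * 2 ^ n * (16 ^ 2 * (3 * T.c) ^ 2)) * X ^ (n + 2) := by
          linarith
      _ = _ := by ring
  · obtain ⟨x, hx⟩ : ∃ x, x = 1 / 2 - s.re := ⟨_, rfl⟩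
    have hq := q_pos T hd
    have hr := refl_real (q := T.q d ^ 2) (by positivity) muW muW_re (w_norm T hd) (tw_fe T hd)
      (x := x) (t := s.im) (by linarith) (by linarith)
    have es : (⟨1 / 2 - x, s.im⟩ : ℂ) = s := by
      apply Complex.ext
      · show 1 / 2 - x = s.re
        linarith
      · rfl
    rw [es] at hr
    have hm := hmid d ⟨1 / 2 + x, s.im⟩ hd (by show 1 / 4 ≤ 1 / 2 + x; linarith)
      (by show 1 / 2 + x ≤ 3; linarith)
    rw [show (⟨1 / 2 + x, s.im⟩ : ℂ).im = s.im from rfl, ← hXe] at hm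
    have hprod : T.q d ^ 2 * ∏ j, (1 + ‖muW j - s.im * I‖) ≤ (3 * T.c * X) ^ 2 := by
      have h1 : ∀ j, 1 + ‖muW j - s.im * I‖ ≤ 3 * (1 + |s.im|) := by
        intro j
        have h2 := norm_sub_le (muW j) (s.im * I)
        rw [norm_mul, norm_I, mul_one, norm_real, Real.norm_eq_abs] at h2
        have h3 := muW_norm j
        linarith [abs_nonneg s.im]
      have h2 : ∏ j, (1 + ‖muW j - s.im * I‖) ≤ ∏ _j : Fin 2, (3 * (1 + |s.im|)) :=
        Finset.prod_le_prod (fun j _ => by positivity) fun j _ => h1 j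
      rw [Finset.prod_const, Finset.card_univ, Fintype.card_fin] at h2
      have h3 : T.q d ^ 2 ≤ (T.c * |(d : ℝ)|) ^ 2 := pow_le_pow_left₀ hq.le (T.q_upper d hd) 2
      calc _ ≤ (T.c * |(d : ℝ)|) ^ 2 * (3 * (1 + |s.im|)) ^ 2 :=
            mul_le_mul h3 h2 (Finset.prod_nonneg fun j _ => by positivity) (by positivity)
        _ = _ := by rw [hXe]; ring
    have hb1 : 1 ≤ (3 * T.c * X) ^ 2 := by
      apply one_le_pow₀
      nlinarith
    have hrp : (T.q d ^ 2 * ∏ j, (1 + ‖muW j - s.im * I‖)) ^ x ≤ (3 * T.c * X) ^ 2 := by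
      calc (T.q d ^ 2 * ∏ j, (1 + ‖muW j - s.im * I‖)) ^ x ≤ ((3 * T.c * X) ^ 2) ^ x := by
            apply Real.rpow_le_rpow _ hprod (by linarith)
            exact mul_nonneg (by positivity) (Finset.prod_nonneg fun j _ => by positivity)
        _ ≤ ((3 * T.c * X) ^ 2) ^ (1 : ℝ) :=
            Real.rpow_le_rpow_of_exponent_le hb1 (by linarith)
        _ = _ := Real.rpow_one _
    calc ‖T.ell d s‖ ≤ _ := hr
      _ ≤ 16 ^ 2 * (3 * T.c * X) ^ 2 * (C * 2 ^ n * X ^ n) := by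
          apply mul_le_mul _ hm (norm_nonneg _) (by positivity)
          exact mul_le_mul_of_nonneg_left hrp (by norm_num)
      _ = C * 2 ^ n * (16 ^ 2 * (3 * T.c) ^ 2) * X ^ (n + 2) := by ring
      _ ≤ _ := by
          have h5 : 0 ≤ (B + C * 2 ^ n) * X ^ (n + 2) := by positivity
          nlinarith

/-- the family of the quadratic twists -/
theorem tw_tf0 (T : Twists Q lam) : TF0 (fun (d : {d : ℤ // Squarefree d}) => T.ell d.1)
    (fun d t => |(d.1 : ℝ)| * (1 + |t|)) where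
  X1 := by
    intro d t
    have h1 := one_le_abs d.2
    nlinarith [abs_nonneg t]
  Xsh := fun d t u => xsh (Q := fun d : {d : ℤ // Squarefree d} => |(d.1 : ℝ)|)
    (fun d => one_le_abs d.2) d t u
  diff := fun d => ell_diff T d.2
  crude := by
    obtain ⟨C, A, h1, h2, h3⟩ := tw_crude T
    exact ⟨C, A, h1, h2, fun d s hs => h3 d.1 s d.2 hs⟩
  right := by
    intro ε hε
    obtain ⟨B, hB0, hB⟩ := tw_right T
    refine ⟨B, hB0, fun d s hs => (hB d.1 s d.2 hs).trans ?_⟩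
    have h1 : 1 ≤ (|(d.1 : ℝ)| * (1 + |s.im|)) ^ ε := by
      apply Real.one_le_rpow _ hε.le
      have h1 := one_le_abs d.2
      nlinarith [abs_nonneg s.im]
    exact le_mul_of_one_le_right hB0 h1

/-- the inequality for one length, for the quadratic twists of all elliptic curves -/
theorem tw_ineq {h : ℝ} (hh : 0 < h) : ∃ C k₀ : ℝ, 0 ≤ C ∧ 0 ≤ k₀ ∧
    ∀ (Q : ℕ) (lam : ℕ → ℝ) (T : Twists Q lam) (d : ℤ), Squarefree d → ∀ t M : ℝ, 0 ≤ M →
      (∀ k : ℕ, (k : ℝ) ≤ k₀ * (1 + |t|) →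
        ‖T.ell d (1 / 2 + ((t + k * h + h : ℝ) : ℂ) * I) -
          T.ell d (1 / 2 + ((t + k * h : ℝ) : ℂ) * I)‖ ≤ M) →
      ‖T.ell d (1 / 2 + (t : ℂ) * I)‖ ≤ C * (1 + |t|) ^ 4 * M := by
  obtain ⟨C, k₀, hC, hk, h1⟩ := level_ineq (m := 2) (by norm_num) (A := 3 / 2) (by norm_num) hh
  exact ⟨C, k₀, hC, hk, fun Q lam T d hd t M hM hΔ =>
    h1 (T.q d ^ 2) muW (T.w d) (T.ell d) (by have := q_pos T hd; positivity) muW_re muW_norm
      (w_norm T hd) (tw_fe T hd) t M hM hΔ⟩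

end Pool.Agent.U645.TL
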